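import Pool.Agent.H896.IL.Free
import Mathlib.Combinatorics.Hall.Basic

/-!
# Log canonical pairs: discrepancies of monomial valuations and one-parameter groups
-/

set_option autoImplicit false

namespace Pool.Agent.H896.IL

open Pool.Agent.T2H08.FQ MvPolynomial MeasureTheory Pool.Agent.H896.IQ Pool.Agent.H896.IR

variable {n c : ℕ} {r : Fin c → ℕ} {N : ℕ}

/-- The discrepancies of the monomial valuations in the direction of one-parameter groups which preserve
the pair are at least `-1`. -/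
def Disc (σ : MvPolynomial (Co r) ℂ) (d : Fin N → ℝ)
    (β : Fin N → (Fin n → ℂ) → MvPolynomial (Co r) ℂ) : Prop :=
  ∀ u : Co r → ℝ, (∀ s, 0 ≤ u s) → (∀ j, ∃ i, u ⟨j, i⟩ = 0) → ∀ (U : Fin N → ℝ) (U' : ℝ),
    (∀ J ∈ σ.support, ∑ s, u s * J s = U') →
    (∀ i v, ∀ I ∈ (β i v).support, ∑ s, u s * I s = U i) → ∑ i, d i * U i ≤ U' + ∑ s, u s

section

variable {σ : MvPolynomial (Co r) ℂ} {l : Fin c → ℕ}
  {κ : Fin N → Fin c → ℕ} {d : Fin N → ℝ} {β : Fin N → (Fin n → ℂ) → MvPolynomial (Co r) ℂ}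

/-- **The relation between the weights of a one-parameter group which preserves the pair.** -/
theorem weight_rel (hβ : ∀ i, IsEffective (β i) (κ i)) (hl : IsHomog l σ)
    (hdisc : Disc σ d β)
    (hk : ∀ j, (l j : ℝ) + (r j + 1) ≤ ∑ i, d i * κ i j) {w : Co r → ℝ} {W : Fin N → ℝ} {W' : ℝ}
    (hW' : ∀ J ∈ σ.support, ∑ s, w s * J s = W')
    (hW : ∀ i v, ∀ I ∈ (β i v).support, ∑ s, w s * I s = W i) (ι : ∀ j, Fin (r j + 1)) :
    ∑ i, d i * W i = W' + ∑ s, w s +
      ∑ j, ((∑ i, d i * κ i j) - ((l j : ℝ) + (r j + 1))) * w ⟨j, ι j⟩ := by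
  classical
  have hmx : ∀ j, ∃ i, ∀ i', w ⟨j, i'⟩ ≤ w ⟨j, i⟩ := fun j => by
    obtain ⟨i, -, hi⟩ := Finset.exists_max_image Finset.univ (fun i => w ⟨j, i⟩)
      (Finset.univ_nonempty (α := Fin (r j + 1)))
    exact ⟨i, fun i' => hi i' (Finset.mem_univ _)⟩
  have hmn : ∀ j, ∃ i, ∀ i', w ⟨j, i⟩ ≤ w ⟨j, i'⟩ := fun j => by
    obtain ⟨i, -, hi⟩ := Finset.exists_min_image Finset.univ (fun i => w ⟨j, i⟩)
      (Finset.univ_nonempty (α := Fin (r j + 1)))
    exact ⟨i, fun i' => hi i' (Finset.mem_univ _)⟩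
  choose x hx using hmx
  choose y hy using hmn
  obtain ⟨X, hX⟩ : ∃ X : Fin c → ℝ, ∀ j, X j = w ⟨j, x j⟩ := ⟨_, fun _ => rfl⟩
  obtain ⟨Y, hY⟩ : ∃ Y : Fin c → ℝ, ∀ j, Y j = w ⟨j, y j⟩ := ⟨_, fun _ => rfl⟩
  have hwX : ∀ s : Co r, w s ≤ X s.1 := fun s => by rw [hX]; exact hx s.1 s.2
  have hYw : ∀ s : Co r, Y s.1 ≤ w s := fun s => by rw [hY]; exact hy s.1 s.2
  -- sums over the blocks
  have hblock : ∀ (Z : Fin c → ℝ) (e : Fin c → ℕ) (J : Co r →₀ ℕ),
      (∀ j, ∑ i, J ⟨j, i⟩ = e j) → ∑ s : Co r, Z s.1 * J s = ∑ j, Z j * e j := by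
    intro Z e J hJ
    rw [Fintype.sum_sigma]
    refine Finset.sum_congr rfl fun j _ => ?_
    rw [← hJ j, Nat.cast_sum, Finset.mul_sum]
  have hone : ∀ Z : Fin c → ℝ, ∑ s : Co r, Z s.1 = ∑ j, Z j * (r j + 1) := by
    intro Z
    rw [Fintype.sum_sigma]
    refine Finset.sum_congr rfl fun j _ => ?_
    change ∑ _y : Fin (r j + 1), Z j = _
    rw [Finset.sum_const, Finset.card_univ, Fintype.card_fin, nsmul_eq_mul]
    push_cast
    ring
  have h1 := hdisc (fun s => w s - Y s.1)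
    (fun s => sub_nonneg.2 (hYw s)) (fun j => ⟨y j, by simp only [hY, sub_self]⟩)
    (fun i => W i - ∑ j, Y j * κ i j) (W' - ∑ j, Y j * l j)
    (fun J hJ => by
      simp only [sub_mul]
      rw [Finset.sum_sub_distrib, hW' J hJ, hblock Y l J (hl J hJ)])
    (fun i v I hI => by
      simp only [sub_mul]
      rw [Finset.sum_sub_distrib, hW i v I hI, hblock Y (κ i) I ((hβ i).homog v I hI)])
  have h2 := hdisc (fun s => X s.1 - w s)
    (fun s => sub_nonneg.2 (hwX s)) (fun j => ⟨x j, by simp only [hX, sub_self]⟩)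
    (fun i => (∑ j, X j * κ i j) - W i) ((∑ j, X j * l j) - W')
    (fun J hJ => by
      simp only [sub_mul]
      rw [Finset.sum_sub_distrib, hW' J hJ, hblock X l J (hl J hJ)])
    (fun i v I hI => by
      simp only [sub_mul]
      rw [Finset.sum_sub_distrib, hW i v I hI, hblock X (κ i) I ((hβ i).homog v I hI)])
  rw [Finset.sum_sub_distrib, hone] at h1 h2
  have hsw : ∀ Z : Fin c → ℝ, ∑ i, d i * (∑ j, Z j * (κ i j : ℝ)) =
      ∑ j, Z j * ∑ i, d i * (κ i j : ℝ) := by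
    intro Z
    simp only [Finset.mul_sum]
    rw [Finset.sum_comm]
    exact Finset.sum_congr rfl fun j _ => Finset.sum_congr rfl fun i _ => by ring
  have h1' : ∑ i, d i * W i - ∑ j, Y j * ∑ i, d i * (κ i j : ℝ) ≤
      W' - ∑ j, Y j * (l j : ℝ) + (∑ s, w s - ∑ j, Y j * ((r j : ℝ) + 1)) := by
    rw [← hsw]
    refine le_trans (le_of_eq ?_) h1
    simp only [mul_sub]
    rw [Finset.sum_sub_distrib]
  have h2' : ∑ j, X j * ∑ i, d i * (κ i j : ℝ) - ∑ i, d i * W i ≤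
      ∑ j, X j * (l j : ℝ) - W' + (∑ j, X j * ((r j : ℝ) + 1) - ∑ s, w s) := by
    rw [← hsw]
    refine le_trans (le_of_eq ?_) h2
    simp only [mul_sub]
    rw [Finset.sum_sub_distrib]
  obtain ⟨δ, hδ⟩ : ∃ δ : Fin c → ℝ, ∀ j, δ j = (∑ i, d i * κ i j) - ((l j : ℝ) + (r j + 1)) :=
    ⟨_, fun _ => rfl⟩
  have hδ0 : ∀ j, 0 ≤ δ j := fun j => by
    rw [hδ]
    exact sub_nonneg.2 (hk j)
  have hsum : ∀ Z : Fin c → ℝ, ∑ j, δ j * Z j = ∑ j, Z j * (∑ i, d i * (κ i j : ℝ)) -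
      ∑ j, Z j * (l j : ℝ) - ∑ j, Z j * ((r j : ℝ) + 1) := by
    intro Z
    rw [← Finset.sum_sub_distrib, ← Finset.sum_sub_distrib]
    refine Finset.sum_congr rfl fun j _ => ?_
    rw [hδ]
    ring
  have h3 : ∑ j, δ j * w ⟨j, ι j⟩ ≤ ∑ j, δ j * X j :=
    Finset.sum_le_sum fun j _ => mul_le_mul_of_nonneg_left (hwX ⟨j, ι j⟩) (hδ0 j)
  have h4 : ∑ j, δ j * Y j ≤ ∑ j, δ j * w ⟨j, ι j⟩ :=
    Finset.sum_le_sum fun j _ => mul_le_mul_of_nonneg_left (hYw ⟨j, ι j⟩) (hδ0 j)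
  have h5 : ∑ j, ((∑ i, d i * (κ i j : ℝ)) - ((l j : ℝ) + (r j + 1))) * w ⟨j, ι j⟩ =
      ∑ j, δ j * w ⟨j, ι j⟩ := Finset.sum_congr rfl fun j _ => by rw [hδ]
  rw [h5]
  have h6 := hsum X
  have h7 := hsum Y
  linarith

end

/-! ### Normal crossings -/

/-- Linearly independent rows: nonzero entries in different columns. -/
theorem exists_injection {S T : Type*} [Fintype T] (M : S → T → ℂ)
    (h : LinearIndependent ℂ M) :
    ∃ f : S → T, Function.Injective f ∧ ∀ i, M i (f i) ≠ 0 := by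
  classical
  have h1 := (Finset.all_card_le_biUnion_card_iff_exists_injective
    (fun i : S => Finset.univ.filter fun t => M i t ≠ 0)).1 ?_
  · obtain ⟨f, hf, hf'⟩ := h1
    exact ⟨f, hf, fun i => (Finset.mem_filter.1 (hf' i)).2⟩
  intro A
  obtain ⟨B, hB⟩ : ∃ B : Finset T, B = A.biUnion fun i : S => Finset.univ.filter fun t =>
    M i t ≠ 0 := ⟨_, rfl⟩
  rw [← hB]
  let L : (B → ℂ) →ₗ[ℂ] (T → ℂ) :=
    { toFun := fun x t => if h : t ∈ B then x ⟨t, h⟩ else 0
      map_add' := fun x y => by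
        funext t
        by_cases h : t ∈ B
        · simp only [Pi.add_apply, dif_pos h]
        · simp only [Pi.add_apply, dif_neg h, add_zero]
      map_smul' := fun a x => by
        funext t
        by_cases h : t ∈ B
        · simp only [Pi.smul_apply, dif_pos h, RingHom.id_apply]
        · simp only [Pi.smul_apply, dif_neg h, smul_zero] }
  have h2 : LinearIndependent ℂ fun i : A => M i := h.comp _ Subtype.val_injective
  have h3 : (L ∘ fun (i : A) (t : B) => M i t) = fun i : A => M i := by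
    funext i t
    change (if h : t ∈ B then M i t else 0) = M i t
    by_cases ht : t ∈ B
    · rw [dif_pos ht]
    · rw [dif_neg ht]
      by_contra hne
      apply ht
      rw [hB, Finset.mem_biUnion]
      exact ⟨i, i.2, Finset.mem_filter.2 ⟨Finset.mem_univ _, fun h0 => hne h0.symm⟩⟩
  rw [← h3] at h2
  have h4 := (LinearIndependent.of_comp L h2).fintype_card_le_finrank
  rw [Module.finrank_fintype_fun_eq_card, Fintype.card_coe, Fintype.card_coe] at h4
  exact h4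

/-- The divisors are smooth and meet with normal crossings. -/
def SNC (β : Fin N → (Fin n → ℂ) → MvPolynomial (Co r) ℂ) : Prop :=
  ∀ v z, IsPt z → LinearIndependent ℂ fun i : {i // eval z (β i v) = 0} =>
    fderiv ℂ (fun p : (Fin n → ℂ) × (Co r → ℂ) => eval p.2 (β i p.1)) (v, z)

theorem fderiv_left {F : (Fin n → ℂ) × (Co r → ℂ) → ℂ} (hF : Differentiable ℂ F) {z : Co r → ℂ}
    (h : ∀ v, F (v, z) = 0) (v x : Fin n → ℂ) : fderiv ℂ F (v, z) (x, 0) = 0 := by
  have h1 : HasFDerivAt (fun v => F (v, z))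
      ((fderiv ℂ F (v, z)).comp (ContinuousLinearMap.inl ℂ (Fin n → ℂ) (Co r → ℂ))) v :=
    (hF (v, z)).hasFDerivAt.comp v (hasFDerivAt_prodMk_left v z)
  have h2 : (fun v => F (v, z)) = fun _ => 0 := funext h
  rw [h2] at h1
  have h3 := h1.unique (hasFDerivAt_const (0 : ℂ) v)
  have h4 := congrArg (fun A : (Fin n → ℂ) →L[ℂ] ℂ => A x) h3
  exact h4

theorem fderiv_dil {F : (Fin n → ℂ) × (Co r → ℂ) → ℂ} (hF : Differentiable ℂ F)
    {a : Co r → ℂ} {b : ℂ} (h : ∀ p, F (p.1, fun s => a s * p.2 s) = b * F p) {v : Fin n → ℂ}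
    {z : Co r → ℂ} (hz : (fun s => a s * z s) = z) (y : (Fin n → ℂ) × (Co r → ℂ)) :
    fderiv ℂ F (v, z) (y.1, fun s => a s * y.2 s) = b * fderiv ℂ F (v, z) y := by
  let A0 : (Fin n → ℂ) × (Co r → ℂ) →ₗ[ℂ] (Fin n → ℂ) × (Co r → ℂ) :=
    { toFun := fun p => (p.1, fun s => a s * p.2 s)
      map_add' := fun p q => by
        refine Prod.ext rfl (funext fun s => ?_)
        exact mul_add _ _ _
      map_smul' := fun t p => by
        refine Prod.ext rfl (funext fun s => ?_)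
        change a s * (t * p.2 s) = t * (a s * p.2 s)
        ring }
  let A : (Fin n → ℂ) × (Co r → ℂ) →L[ℂ] (Fin n → ℂ) × (Co r → ℂ) := A0.toContinuousLinearMap
  have hA : ∀ p, A p = (p.1, fun s => a s * p.2 s) := fun p => rfl
  have h0 : A (v, z) = (v, z) := by
    rw [hA]
    exact Prod.ext rfl hz
  have h1 : HasFDerivAt (fun p => F (A p)) ((fderiv ℂ F (v, z)).comp A) (v, z) := by
    have h2 : HasFDerivAt F (fderiv ℂ F (v, z)) (A (v, z)) := by
      rw [h0]
      exact (hF (v, z)).hasFDerivAt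
    exact h2.comp (v, z) A.hasFDerivAt
  have h2 : HasFDerivAt (fun p => F (A p)) (b • fderiv ℂ F (v, z)) (v, z) := by
    have h3 : (fun p => F (A p)) = fun p => b * F p := funext fun p => h p
    rw [h3]
    exact (hF (v, z)).hasFDerivAt.const_mul b
  have h3 := congrArg (fun B : (Fin n → ℂ) × (Co r → ℂ) →L[ℂ] ℂ => B y) (h1.unique h2)
  exact h3

/-- **The discrepancies of a pair with normal crossings.** -/
theorem disc_of_snc {σ : MvPolynomial (Co r) ℂ} {κ : Fin N → Fin c → ℕ}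
    {β : Fin N → (Fin n → ℂ) → MvPolynomial (Co r) ℂ} {d : Fin N → ℝ}
    (hβ : ∀ i, IsEffective (β i) (κ i)) (hσ0 : σ ≠ 0) (hsnc : SNC β)
    (hd1 : ∀ i, d i ≤ 1) : Disc σ d β := by
  classical
  intro u hu hblk U U' hU' hU
  choose y hy using hblk
  obtain ⟨z, hz⟩ : ∃ z : Co r → ℂ, ∀ s, z s = if s.2 = y s.1 then 1 else 0 := ⟨_, fun _ => rfl⟩
  have hz1 : ∀ s, z s ≠ 0 → u s = 0 := by
    intro s hs
    rw [hz] at hs
    by_cases h : s.2 = y s.1
    · have h1 : s = ⟨s.1, y s.1⟩ := by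
        rw [← h]
      rw [h1]
      exact hy _
    · rw [if_neg h] at hs
      exact absurd rfl hs
  have hzp : IsPt z := fun j => ⟨y j, by rw [hz, if_pos rfl]; exact one_ne_zero⟩
  have hU0 : ∀ i, 0 ≤ U i := by
    intro i
    obtain ⟨v, hv⟩ := (hβ i).ne_zero
    obtain ⟨I, hI⟩ := MvPolynomial.support_nonempty.2 hv
    rw [← hU i v I hI]
    exact Finset.sum_nonneg fun s _ => mul_nonneg (hu s) (Nat.cast_nonneg _)
  have hU'0 : 0 ≤ U' := by
    obtain ⟨J, hJ⟩ := MvPolynomial.support_nonempty.2 hσ0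
    rw [← hU' J hJ]
    exact Finset.sum_nonneg fun s _ => mul_nonneg (hu s) (Nat.cast_nonneg _)
  have hF : ∀ i, Differentiable ℂ fun p : (Fin n → ℂ) × (Co r → ℂ) => eval p.2 (β i p.1) :=
    fun i => holo_eval (hβ i).holo (hβ i).homog
  -- the functions of positive weight vanish at the vertex
  have hvan : ∀ i, U i ≠ 0 → ∀ v, eval z (β i v) = 0 := by
    intro i hi v
    rw [eval_eq']
    refine Finset.sum_eq_zero fun I hI => ?_
    by_contra hne
    apply hi
    rw [← hU i v I hI]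
    refine Finset.sum_eq_zero fun s _ => ?_
    by_cases hs : I s = 0
    · rw [hs, Nat.cast_zero, mul_zero]
    · have h1 := (Finset.prod_ne_zero_iff.1 (right_ne_zero_of_mul hne)) s (Finset.mem_univ _)
      have h2 : z s ≠ 0 := by
        intro h0
        rw [h0, zero_pow hs] at h1
        exact h1 rfl
      rw [hz1 s h2, zero_mul]
  let S := {i : Fin N // U i ≠ 0}
  let D : S → ((Fin n → ℂ) × (Co r → ℂ)) →L[ℂ] ℂ := fun i =>
    fderiv ℂ (fun p : (Fin n → ℂ) × (Co r → ℂ) => eval p.2 (β i p.1)) (0, z)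
  have hD : LinearIndependent ℂ D := by
    have h1 := (hsnc 0 z hzp).comp (fun i : S => (⟨i.1, hvan i i.2 0⟩ :
      {i // eval z (β i 0) = 0})) (fun i j h => Subtype.ext (congrArg (fun x => x.1) h))
    exact h1
  have hDV : ∀ (i : S) x, D i (x, 0) = 0 := fun i x =>
    fderiv_left (hF i) (hvan i i.2) 0 x
  have hDs : ∀ (i : S) (s : Co r), D i (0, Pi.single s 1) ≠ 0 → u s = U i := by
    intro i s hne
    have hh : (0 : ℝ) < 1 / 2 := by norm_num
    have h1 := fderiv_dil (hF i) (a := fun s => (((1 / 2 : ℝ) ^ u s : ℝ) : ℂ))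
      (b := (((1 / 2 : ℝ) ^ U i : ℝ) : ℂ)) (fun p => eval_dil (hU i p.1) p.2) (v := 0) (z := z)
      (by
        funext t
        by_cases ht : z t = 0
        · rw [ht, mul_zero]
        · rw [hz1 t ht, Real.rpow_zero, Complex.ofReal_one, one_mul])
      ((0, Pi.single s 1) : (Fin n → ℂ) × (Co r → ℂ))
    have h2 : (((0 : Fin n → ℂ), fun t => (((1 / 2 : ℝ) ^ u t : ℝ) : ℂ) *
        (Pi.single s 1 : Co r → ℂ) t) : (Fin n → ℂ) × (Co r → ℂ)) =
        (((1 / 2 : ℝ) ^ u s : ℝ) : ℂ) • ((0, Pi.single s 1) : (Fin n → ℂ) × (Co r → ℂ)) := by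
      refine Prod.ext ?_ (funext fun t => ?_)
      · change (0 : Fin n → ℂ) = _ • (0 : Fin n → ℂ)
        rw [smul_zero]
      · change (((1 / 2 : ℝ) ^ u t : ℝ) : ℂ) * (Pi.single s 1 : Co r → ℂ) t =
          (((1 / 2 : ℝ) ^ u s : ℝ) : ℂ) * (Pi.single s 1 : Co r → ℂ) t
        by_cases ht : t = s
        · rw [ht]
        · rw [Pi.single_eq_of_ne ht, mul_zero, mul_zero]
    have h3 : D i ((((1 / 2 : ℝ) ^ u s : ℝ) : ℂ) • ((0, Pi.single s 1) :
        (Fin n → ℂ) × (Co r → ℂ))) = (((1 / 2 : ℝ) ^ U i : ℝ) : ℂ) * D i (0, Pi.single s 1) := by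
      rw [← h2]
      exact h1
    rw [map_smul, smul_eq_mul] at h3
    have h4 := mul_right_cancel₀ hne h3
    have h5 : (1 / 2 : ℝ) ^ u s = (1 / 2 : ℝ) ^ U i := by exact_mod_cast h4
    exact (Real.rpow_right_inj hh (by norm_num)).1 h5
  -- the rows
  let M : S → Co r → ℂ := fun i s => D i (0, Pi.single s 1)
  let E : Co r → (((Fin n → ℂ) × (Co r → ℂ)) →L[ℂ] ℂ) := fun s =>
    (ContinuousLinearMap.proj s).comp (ContinuousLinearMap.snd ℂ (Fin n → ℂ) (Co r → ℂ))
  let Ψ : (Co r → ℂ) →ₗ[ℂ] (((Fin n → ℂ) × (Co r → ℂ)) →L[ℂ] ℂ) :=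
    { toFun := fun x => ∑ s, x s • E s
      map_add' := fun x y => by
        rw [← Finset.sum_add_distrib]
        exact Finset.sum_congr rfl fun s _ => add_smul (x s) (y s) (E s)
      map_smul' := fun a x => by
        rw [RingHom.id_apply, Finset.smul_sum]
        exact Finset.sum_congr rfl fun s _ => mul_smul a (x s) (E s) }
  have hΨ : ∀ x p, Ψ x p = ∑ s, x s * p.2 s := by
    intro x p
    change (∑ s, x s • E s) p = _
    rw [_root_.sum_apply]
    rfl
  have hΨM : (Ψ ∘ M) = D := by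
    funext i
    refine ContinuousLinearMap.ext fun p => ?_
    change Ψ (M i) p = D i p
    rw [hΨ]
    have h1 : p = (p.1, 0) + ∑ s, p.2 s • ((0, Pi.single s 1) : (Fin n → ℂ) × (Co r → ℂ)) := by
      refine Prod.ext ?_ ?_
      · rw [Prod.fst_add, Prod.fst_sum]
        simp
      · rw [Prod.snd_add, Prod.snd_sum, zero_add]
        exact pi_eq_sum_univ' p.2
    conv_rhs => rw [h1, map_add, hDV, zero_add, map_sum]
    refine Finset.sum_congr rfl fun s _ => ?_
    rw [map_smul, smul_eq_mul, mul_comm]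
  rw [← hΨM] at hD
  obtain ⟨f, hf, hf'⟩ := exists_injection M (LinearIndependent.of_comp Ψ hD)
  have h1 : ∑ i : S, U i ≤ ∑ s, u s := by
    have h2 : ∑ i : S, U i = ∑ i : S, u (f i) :=
      Finset.sum_congr rfl fun i _ => (hDs i _ (hf' i)).symm
    rw [h2, ← Finset.sum_image (f := u) (s := Finset.univ) (g := f) hf.injOn]
    exact Finset.sum_le_univ_sum_of_nonneg hu
  have h2 : ∑ i, d i * U i ≤ ∑ i, U i := Finset.sum_le_sum fun i _ => by
    have h3 := mul_le_mul_of_nonneg_right (hd1 i) (hU0 i)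
    rwa [one_mul] at h3
  have h3 : ∑ i, U i = ∑ i : S, U i := by
    have h4 : ∑ i : S, U i = ∑ i ∈ Finset.univ.filter fun i => U i ≠ 0, U i :=
      (Finset.sum_subtype (Finset.univ.filter fun i => U i ≠ 0) (by simp) U).symm
    rw [h4, Finset.sum_filter]
    refine Finset.sum_congr rfl fun i _ => ?_
    split_ifs with h
    · rfl
    · push Not at h
      exact h
  linarith

end Pool.Agent.H896.IL
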