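import Pool.Agent.H896.IQ.Nrm

/-!
# The exponent of the stabilisers
-/

set_option autoImplicit false

namespace Pool.Agent.H896.IG

open MvPolynomial Pool.Agent.T2H08.FB Pool.Agent.W594.SYZ2
open Pool.Agent.T2H08 Pool.Agent.H896.IQ

variable {n c : ℕ} {r : Fin c → ℕ} {Γ : Subgroup (Trans n r)}

/-- pigeonhole for powers -/
theorem exists_dvd_of_finset {X : Type*} {F : Finset X} {f : ℕ → X} (h : ∀ a, f a ∈ F) :
    ∃ a d : ℕ, 1 ≤ d ∧ d ∣ F.card.factorial ∧ f a = f (a + d) := by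
  classical
  obtain ⟨a, ha, b, hb, hab, hf⟩ := Finset.exists_ne_map_eq_of_card_lt_of_maps_to
    (s := Finset.range (F.card + 1)) (t := F) (f := f) (by rw [Finset.card_range]; omega)
    (fun a _ => h a)
  rw [Finset.mem_range] at ha hb
  rcases lt_or_gt_of_ne hab with h1 | h1
  · refine ⟨a, b - a, by omega, Nat.dvd_factorial (by omega) (by omega), ?_⟩
    rw [hf]
    congr 1
    omega
  · refine ⟨b, a - b, by omega, Nat.dvd_factorial (by omega) (by omega), ?_⟩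
    rw [← hf]
    congr 1
    omega

theorem onV_mul (g h : Trans n r) (v : Fin n → ℂ) : onV (g * h) v = onV g (onV h v) := rfl

theorem onZ_mul (g h : Trans n r) (z : Co r → ℂ) : onZ (g * h) z = onZ g (onZ h z) := rfl

theorem pow_onV_fixed {g : Trans n r} {v : Fin n → ℂ} (h : onV g v = v) (a : ℕ) :
    onV (g ^ a) v = v := by
  induction a with
  | zero => rfl
  | succ a ih => rw [pow_succ, onV_mul, h, ih]

theorem mulBy_mulBy (μ ν : Fin c → ℂˣ) (z : Co r → ℂ) :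
    mulBy μ (mulBy ν z) = mulBy (μ * ν) z := by
  funext s
  change (μ s.1 : ℂ) * ((ν s.1 : ℂ) * z s) = ((μ s.1 * ν s.1 : ℂˣ) : ℂ) * z s
  rw [Units.val_mul, mul_assoc]

/-- `g` acts trivially on `V × F`. -/
def Triv (g : Trans n r) (ν : Fin c → ℂˣ) : Prop :=
  (∀ w, onV g w = w) ∧ ∀ z, onZ g z = mulBy ν z

theorem Triv.pow {g : Trans n r} {ν : Fin c → ℂˣ} (h : Triv g ν) (a : ℕ) :
    Triv (g ^ a) (ν ^ a) := by
  refine ⟨fun w => pow_onV_fixed (h.1 w) a, fun z => ?_⟩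
  induction a with
  | zero =>
    funext s
    change z s = ((1 : ℂˣ) : ℂ) * z s
    rw [Units.val_one, one_mul]
  | succ a ih =>
    rw [pow_succ, onZ_mul, h.2]
    have h1 : ∀ z, onZ (g ^ a) (mulBy ν z) = mulBy ν (onZ (g ^ a) z) := by
      clear ih
      intro z
      induction a with
      | zero => rfl
      | succ a ih =>
        rw [pow_succ', onZ_mul, ih, onZ_mul, h.2, h.2]
    rw [h1, ih, mulBy_mulBy, ← pow_succ']

/-- the elements acting trivially on `V` -/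
theorem exists_exp_ker (hΓ : IsIsometryGroup Γ) : ∃ N : ℕ, 1 ≤ N ∧ ∀ g ∈ Γ,
    (∀ w, onV g w = w) → ∃ ν, Triv (g ^ N) ν := by
  classical
  obtain ⟨S, hS, h⟩ := hΓ.discrete 0
  refine ⟨hS.toFinset.card.factorial, Nat.factorial_pos _, fun g hg hgV => ?_⟩
  have h1 : ∀ a : ℕ, ∃ x ∈ S, ∃ μ : Fin c → ℂˣ, ∀ z, onZ (g ^ a) z = mulBy μ (onZ x z) := by
    intro a
    obtain ⟨x, hx, -, μ, hμ⟩ := h (g ^ a) (Γ.pow_mem hg a) (by
      rw [pow_onV_fixed (hgV 0)]
      simp)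
    exact ⟨x, hx, μ, hμ⟩
  choose f hf μ hμ using h1
  obtain ⟨a, d, hd, hdN, hfa⟩ := exists_dvd_of_finset (F := hS.toFinset) (f := f)
    (fun a => hS.mem_toFinset.2 (hf a))
  have h2 : Triv (g ^ d) (μ (a + d) * (μ a)⁻¹) := by
    refine ⟨fun w => pow_onV_fixed (hgV w) d, fun z => ?_⟩
    have h3 := hμ (a + d) (onZ (g ^ a)⁻¹ z)
    have h4 := hμ a (onZ (g ^ a)⁻¹ z)
    rw [onZ_inv] at h4
    rw [← hfa] at h3
    have h5 : onZ (f a) (onZ (g ^ a)⁻¹ z) = mulBy (μ a)⁻¹ z := by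
      conv_rhs => rw [h4]
      rw [mulBy_mulBy, inv_mul_cancel]
      funext s
      change _ = ((1 : ℂˣ) : ℂ) * _
      rw [Units.val_one, one_mul]
    rw [h5, mulBy_mulBy, add_comm, pow_add, onZ_mul, onZ_inv] at h3
    rw [add_comm a d]
    exact h3
  obtain ⟨t, ht⟩ := hdN
  rw [ht, pow_mul]
  exact ⟨_, h2.pow t⟩

/-- **The exponent of the stabilisers.** -/
theorem exists_exp (hΓ : IsIsometryGroup Γ) : ∃ N : ℕ, 1 ≤ N ∧ ∀ g ∈ Γ, ∀ v,
    onV g v = v → ∃ ν, Triv (g ^ N) ν := by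
  classical
  obtain ⟨N, hN, h⟩ := exists_exp_ker hΓ
  have hfin := (torus_all hΓ).finite_linear
  refine ⟨hfin.toFinset.card.factorial * N, Nat.mul_pos (Nat.factorial_pos _) hN,
    fun g hg v hv => ?_⟩
  have h1 : ∀ a : ℕ, (g.1 ^ a).linear ∈ hfin.toFinset := by
    intro a
    rw [hfin.mem_toFinset]
    exact ⟨g.1 ^ a, FQ.mem_GA.2 ⟨g.2 ^ a, Γ.pow_mem hg a⟩, rfl⟩
  obtain ⟨a, d, hd, hdN, hfa⟩ := exists_dvd_of_finset h1
  have h2 : ∀ w, onV (g ^ d) w = w := by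
    intro w
    have h3 : (g.1 ^ d).linear = 1 := by
      have h4 : (g.1 ^ (a + d)).linear = (g.1 ^ a).linear * (g.1 ^ d).linear := by
        rw [pow_add]
        rfl
      rw [← hfa] at h4
      exact (mul_eq_left.1 h4.symm)
    have h4 : onV (g ^ d) w = (g.1 ^ d).linear (w - v) + onV (g ^ d) v := by
      have h5 := (g.1 ^ d).map_vadd v (w - v)
      rw [vadd_eq_add, vadd_eq_add, sub_add_cancel] at h5
      exact h5
    rw [h4, h3, pow_onV_fixed hv]
    exact sub_add_cancel w v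
  obtain ⟨t, ht⟩ := hdN
  rw [ht, pow_mul, pow_mul]
  refine h _ (Γ.pow_mem (Γ.pow_mem hg _) _) fun w => pow_onV_fixed (h2 w) t

end Pool.Agent.H896.IG
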