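import Pool.Agent.H896.IL.Disc

/-!
# Log canonical pairs: the relation between the weights
-/

set_option autoImplicit false

namespace Pool.Agent.H896.IL

open Pool.Agent.T2H08.FQ MvPolynomial MeasureTheory Pool.Agent.H896.IQ Pool.Agent.H896.IR

variable {n c : ℕ} {r : Fin c → ℕ} {N : ℕ}

/-- **The discrepancies of a log canonical pair.** -/
theorem disc_of_lc {ρ : (Fin n → ℂ) → ℂ} {σ : MvPolynomial (Co r) ℂ} {l : Fin c → ℕ}
    {κ : Fin N → Fin c → ℕ} {d : Fin N → ℝ} {β : Fin N → (Fin n → ℂ) → MvPolynomial (Co r) ℂ}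
    (hρ : Differentiable ℂ ρ) (hβ : ∀ i, IsEffective (β i) (κ i)) (hl : IsHomog l σ)
    (hρ0 : ∃ v, ρ v ≠ 0) (hσ0 : σ ≠ 0)
    (hlc : ∀ t : ℝ, 0 ≤ t → t < 1 → KltR ρ σ (fun i => t * d i) β) : Disc σ d β := by
  intro u hu hblk U U' hU' hU
  by_cases hne : ∃ s, u s ≠ 0
  · have h1 : ∀ t : ℝ, 0 ≤ t → t < 1 → t * (∑ i, d i * U i) < U' + ∑ s, u s := by
      intro t ht0 ht1
      have h2 := disc_pos hρ hβ hl hρ0 hσ0 (hlc t ht0 ht1) hu hblk hne hU' hU
      have h3 : ∑ i, t * d i * U i = t * ∑ i, d i * U i := by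
        rw [Finset.mul_sum]
        exact Finset.sum_congr rfl fun i _ => mul_assoc _ _ _
      rw [h3] at h2
      linarith
    have h2 := h1 0 le_rfl one_pos
    rw [zero_mul] at h2
    by_contra hcon
    push Not at hcon
    have h3 := h1 ((U' + ∑ s, u s) / ∑ i, d i * U i) (div_nonneg h2.le (h2.trans hcon).le)
      ((div_lt_one (h2.trans hcon)).2 hcon)
    rw [div_mul_cancel₀ _ (h2.trans hcon).ne'] at h3
    exact lt_irrefl _ h3
  · push Not at hne
    have h1 : U' = 0 := by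
      obtain ⟨J, hJ⟩ := MvPolynomial.support_nonempty.2 hσ0
      rw [← hU' J hJ]
      exact Finset.sum_eq_zero fun s _ => by rw [hne, zero_mul]
    have h2 : ∀ i, U i = 0 := by
      intro i
      obtain ⟨v, hv⟩ := (hβ i).ne_zero
      obtain ⟨I, hI⟩ := MvPolynomial.support_nonempty.2 hv
      rw [← hU i v I hI]
      exact Finset.sum_eq_zero fun s _ => by rw [hne, zero_mul]
    have h3 : ∑ i, d i * U i = 0 := Finset.sum_eq_zero fun i _ => by rw [h2, mul_zero]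
    have h4 : ∑ s, u s = 0 := Finset.sum_eq_zero fun s _ => hne s
    rw [h1, h3, h4, add_zero]

/-- Normal crossings in other coordinates. -/
theorem snc_chg {P : (Co r → ℂ) ≃ₗ[ℂ] (Co r → ℂ)} (hP : BU (lm P))
    {κ : Fin N → Fin c → ℕ} {β : Fin N → (Fin n → ℂ) → MvPolynomial (Co r) ℂ}
    (hβ : ∀ i, IsEffective (β i) (κ i)) (h : SNC β) : SNC fun i v => sub P (β i v) := by
  intro v z hz
  let A : ((Fin n → ℂ) × (Co r → ℂ)) ≃L[ℂ] ((Fin n → ℂ) × (Co r → ℂ)) :=
    ((LinearEquiv.refl ℂ (Fin n → ℂ)).prodCongr P).toContinuousLinearEquiv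
  have hA : ∀ p, A p = (p.1, P p.2) := fun p => rfl
  have hF : ∀ i, Differentiable ℂ fun p : (Fin n → ℂ) × (Co r → ℂ) => eval p.2 (β i p.1) :=
    fun i => holo_eval (hβ i).holo (hβ i).homog
  have h1 : ∀ i, fderiv ℂ (fun p : (Fin n → ℂ) × (Co r → ℂ) => eval p.2 (sub P (β i p.1))) (v, z) =
      (fderiv ℂ (fun p : (Fin n → ℂ) × (Co r → ℂ) => eval p.2 (β i p.1)) (v, P z)).comp
        (A : ((Fin n → ℂ) × (Co r → ℂ)) →L[ℂ] ((Fin n → ℂ) × (Co r → ℂ))) := by
    intro i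
    have h2 : (fun p : (Fin n → ℂ) × (Co r → ℂ) => eval p.2 (sub P (β i p.1))) =
        fun p => (fun p : (Fin n → ℂ) × (Co r → ℂ) => eval p.2 (β i p.1)) (A p) := by
      funext p
      rw [eval_sub, hA]
    rw [h2]
    exact ((hF i (v, P z)).hasFDerivAt.comp (v, z) A.hasFDerivAt).fderiv
  have h2 := (h v (P z) (hP.isPt hz)).comp (fun i : {i // eval z (sub P (β i v)) = 0} =>
    (⟨i.1, by rw [← eval_sub]; exact i.2⟩ : {i // eval (P z) (β i v) = 0}))
    (fun i j h => Subtype.ext (congrArg (fun x => x.1) h))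
  let Φ : (((Fin n → ℂ) × (Co r → ℂ)) →L[ℂ] ℂ) →ₗ[ℂ] (((Fin n → ℂ) × (Co r → ℂ)) →L[ℂ] ℂ) :=
    { toFun := fun B => B.comp (A.symm : ((Fin n → ℂ) × (Co r → ℂ)) →L[ℂ]
        ((Fin n → ℂ) × (Co r → ℂ)))
      map_add' := fun B C => ContinuousLinearMap.add_comp _ _ _
      map_smul' := fun a B => ContinuousLinearMap.smul_comp _ _ _ }
  refine LinearIndependent.of_comp Φ ?_
  refine (linearIndependent_equiv' (Equiv.refl _) ?_).1 h2
  funext i
  refine ContinuousLinearMap.ext fun p => ?_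
  change (fderiv ℂ (fun p : (Fin n → ℂ) × (Co r → ℂ) => eval p.2 (sub P (β i.1 p.1))) (v, z))
    (A.symm p) = (fderiv ℂ (fun p : (Fin n → ℂ) × (Co r → ℂ) => eval p.2 (β i.1 p.1)) (v, P z)) p
  rw [h1]
  change (fderiv ℂ (fun p : (Fin n → ℂ) × (Co r → ℂ) => eval p.2 (β i.1 p.1)) (v, P z))
    (A (A.symm p)) = _
  rw [ContinuousLinearEquiv.apply_symm_apply]

/-- the weight of a product -/
theorem wt_prod {κ : Fin N → Fin c → ℕ} {β : Fin N → (Fin n → ℂ) → MvPolynomial (Co r) ℂ}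
    (hβ : ∀ i, IsEffective (β i) (κ i)) {b : Fin N → ℕ} {w : Co r → ℕ} {W : ℕ}
    (hW : ∀ v, ∀ I ∈ (∏ i, β i v ^ b i).support, wt w I = W) {Wi : Fin N → ℕ}
    (hWi : ∀ i v, ∀ I ∈ (β i v).support, wt w I = Wi i) : W = ∑ i, b i * Wi i := by
  classical
  obtain ⟨v, hv⟩ := (eff_prod hβ b Finset.univ).ne_zero
  obtain ⟨I, hI⟩ := MvPolynomial.support_nonempty.2 hv
  have hmul : ∀ (p q : MvPolynomial (Co r) ℂ) (A B : ℕ), (∀ I ∈ p.support, wt w I = A) →
      (∀ I ∈ q.support, wt w I = B) → ∀ I ∈ (p * q).support, wt w I = A + B := by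
    intro p q A B hp hq I hI
    obtain ⟨I1, h1, I2, h2, rfl⟩ := Finset.mem_add.1 (MvPolynomial.support_mul p q hI)
    rw [wt_add, hp I1 h1, hq I2 h2]
  have hone : ∀ I ∈ (1 : MvPolynomial (Co r) ℂ).support, wt w I = 0 := by
    intro I hI
    rw [mem_support_iff, coeff_one] at hI
    have h1 : I = 0 := by
      by_contra h
      rw [if_neg (Ne.symm h)] at hI
      exact hI rfl
    subst h1
    unfold wt
    simp
  have hpow : ∀ (p : MvPolynomial (Co r) ℂ) (A b : ℕ), (∀ I ∈ p.support, wt w I = A) →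
      ∀ I ∈ (p ^ b).support, wt w I = b * A := by
    intro p A b hp
    induction b with
    | zero =>
      rw [pow_zero, zero_mul]
      exact hone
    | succ b ih =>
      rw [pow_succ, add_mul, one_mul]
      exact hmul _ _ _ _ ih hp
  have hprod : ∀ s : Finset (Fin N), ∀ I ∈ (∏ i ∈ s, β i v ^ b i).support,
      wt w I = ∑ i ∈ s, b i * Wi i := by
    intro s
    induction s using Finset.induction_on with
    | empty =>
      rw [Finset.prod_empty, Finset.sum_empty]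
      exact hone
    | insert a s ha ih =>
      rw [Finset.prod_insert ha, Finset.sum_insert ha]
      exact hmul _ _ _ _ (hpow _ _ _ (hWi a v)) ih
  rw [← hW v I hI, hprod Finset.univ I hI]

/-- **The relation from the discrepancies, for rational coefficients `b i / m`.** -/
theorem wrel_of_disc {σ : MvPolynomial (Co r) ℂ} {l : Fin c → ℕ} {κ : Fin N → Fin c → ℕ}
    {β : Fin N → (Fin n → ℂ) → MvPolynomial (Co r) ℂ} (hβ : ∀ i, IsEffective (β i) (κ i))
    (hl : IsHomog l σ) {m : ℕ} (hm : 1 ≤ m) {b : Fin N → ℕ} (hb : ∀ i, 1 ≤ b i)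
    {deg : Fin c → ℤ} (hdeg : ∀ j, deg j + m * (l j + (r j + 1)) = ((∑ i, b i * κ i j : ℕ) : ℤ))
    (hdeg0 : ∀ j, 0 ≤ deg j) (hdisc : Disc σ (fun i => (b i : ℝ) / m) β) :
    WRel m deg σ fun v => ∏ i, β i v ^ b i := by
  intro w W W' hW' hW ι
  have hm0 : (m : ℝ) ≠ 0 := by positivity
  have h1 : ∀ i, ∃ W' : ℕ, ∀ v, ∀ I ∈ (β i v).support, wt w I = W' := fun i =>
    iso_factor hβ hb hW i
  choose Wi hWi using h1
  have h2 := wt_prod hβ hW hWi
  have hdR : ∀ j, (∑ i, (b i : ℝ) / m * κ i j) - ((l j : ℝ) + (r j + 1)) = (deg j : ℝ) / m := by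
    intro j
    have h3 : ((deg j + m * (l j + (r j + 1)) : ℤ) : ℝ) =
      (((∑ i, b i * κ i j : ℕ) : ℤ) : ℝ) := by rw [hdeg j]
    push_cast at h3
    have h4 : ∑ i, (b i : ℝ) / m * κ i j = (∑ i, (b i : ℝ) * κ i j) / m := by
      rw [Finset.sum_div]
      exact Finset.sum_congr rfl fun i _ => by ring
    rw [h4, ← h3]
    field_simp
    ring
  have h3 := weight_rel (w := fun s => (w s : ℝ)) (W := fun i => (Wi i : ℝ)) (W' := (W' : ℝ))
    hβ hl hdisc (fun j => by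
      have h4 := hdR j
      have h5 : (0 : ℝ) ≤ (deg j : ℝ) / m := div_nonneg (by exact_mod_cast hdeg0 j)
        (Nat.cast_nonneg _)
      linarith)
    (fun J hJ => by
      have h3 := hW' J hJ
      unfold wt at h3
      exact_mod_cast h3)
    (fun i v I hI => by
      have h3 := hWi i v I hI
      unfold wt at h3
      exact_mod_cast h3) ι
  simp only [hdR] at h3
  have h4 : ∑ i, (b i : ℝ) / m * Wi i = (W : ℝ) / m := by
    rw [h2]
    push_cast
    rw [Finset.sum_div]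
    exact Finset.sum_congr rfl fun i _ => by ring
  have h5 : ∑ j, (deg j : ℝ) / m * (w ⟨j, ι j⟩ : ℝ) =
      (∑ j, (deg j : ℝ) * (w ⟨j, ι j⟩ : ℝ)) / m := by
    rw [Finset.sum_div]
    exact Finset.sum_congr rfl fun i _ => by ring
  rw [h4, h5] at h3
  have h6 : (W : ℝ) = m * W' + m * ∑ s, (w s : ℝ) + ∑ j, (deg j : ℝ) * (w ⟨j, ι j⟩ : ℝ) := by
    field_simp at h3
    linarith
  exact_mod_cast h6

end Pool.Agent.H896.IL
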