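import Pool.Agent.H896.IQ.Stmt
import Mathlib.Analysis.Calculus.FDeriv.Basic

/-!
# Normal crossing divisors and complete intersections in compact quotients of
`ℂ^n × P^{r_1} × ... × P^{r_c}` by isometries

See `Pool.Agent.H896.IQ.Stmt` for the groups; `Co`, `IsPt`, `mulBy`, `Trans`, `onV`, `onZ`, `jac` and
`IsEffective` are defined in `Pool.Agent.T2H08.FQ.Stmt` of the library. The hypersurface `Z_i` of `V × F`
is defined by `β i`, a polynomial, homogeneous of degree `κ i j` in the coordinates of the `j`-th factor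
of `F`, whose coefficients are entire functions on `V` (`IsEffective (β i) (κ i)`).
-/

set_option autoImplicit false

namespace Pool.Agent.H896.IG

open MvPolynomial Pool.Agent.T2H08.FB

variable {n c : ℕ} {r : Fin c → ℕ} {N : ℕ}

/-- The hypersurfaces `Z_i` of `V × F` are smooth and meet with normal crossings: at each point of `V × F`
the differentials of the `β i` which vanish at this point are linearly independent. -/
def IsNormalCrossing (β : Fin N → (Fin n → ℂ) → MvPolynomial (Co r) ℂ) : Prop :=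
  ∀ v z, IsPt z → LinearIndependent ℂ fun i : {i // eval z (β i v) = 0} =>
    fderiv ℂ (fun p : (Fin n → ℂ) × (Co r → ℂ) => eval p.2 (β i p.1)) (v, z)

/-- The divisor `∑ b i Z_i` is invariant under `Γ`, and `e` is the factor of automorphy of its equation
`∏ β i ^ b i`. -/
structure IsFactor (Γ : Subgroup (Trans n r)) (β : Fin N → (Fin n → ℂ) → MvPolynomial (Co r) ℂ)
    (b : Fin N → ℕ) (e : Trans n r → (Fin n → ℂ) → ℂ) : Prop where
  holo : ∀ g ∈ Γ, Differentiable ℂ (e g)
  ne_zero : ∀ g ∈ Γ, ∀ v, e g v ≠ 0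
  eq : ∀ g ∈ Γ, ∀ v z, ∏ i, eval (onZ g z) (β i (onV g v)) ^ b i =
    e g v * ∏ i, eval z (β i v) ^ b i

/-- The class of the divisor with the factor of automorphy `e` is `H` in the directions of `V`: for some
holomorphic function `f` on `V` the function `|s (v, z)|² exp (- π H (v, v) - 2 Re f (v)) ∏ |z_j| ^ (- 2 k_j)`,
`s` its equation, homogeneous of degree `k_j` in the coordinates of the `j`-th factor, is invariant under
`Γ`. -/
def HasChernForm (Γ : Subgroup (Trans n r)) (e : Trans n r → (Fin n → ℂ) → ℂ)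
    (H : (Fin n → ℂ) → (Fin n → ℂ) → ℂ) : Prop :=
  Pool.Agent.W594.SYZ2.IsHermitian H ∧ ∃ f : (Fin n → ℂ) → ℂ, Differentiable ℂ f ∧
    ∀ g ∈ Γ, ∀ v, ‖e g v‖ ^ 2 =
      Real.exp (Real.pi * (H (onV g v) (onV g v)).re + 2 * (f (onV g v)).re
        - (Real.pi * (H v v).re + 2 * (f v).re))

/-- `s` is a section of `M (q K + ∑ b i Z_i)` which is invariant under `Γ`: the form
`s (dv Ω) ^ (q M) / ∏ β i ^ (b i M)` on `V × F` is invariant under `Γ`, up to the signs which disappear for
even `M`. Here `Ω = ∧ Ω_j`, `Ω_j = ∑ i, (-1) ^ i z_i dz_0 ∧ ... dz_i omitted ... ∧ dz_{r j}`, is homogeneous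
of degree `r j + 1` in the coordinates of the `j`-th factor, and `g^* (dv Ω) = ± jac (g) dv Ω`. -/
structure IsLogForm (Γ : Subgroup (Trans n r)) (β : Fin N → (Fin n → ℂ) → MvPolynomial (Co r) ℂ)
    (κ : Fin N → Fin c → ℕ) (q : ℕ) (b : Fin N → ℕ) (M : ℕ)
    (s : (Fin n → ℂ) → (Co r → ℂ) → ℂ) : Prop where
  holo : Differentiable ℂ fun p : (Fin n → ℂ) × (Co r → ℂ) => s p.1 p.2
  homog : ∀ (μ : Fin c → ℂˣ) v z, s v (mulBy μ z) =
    (∏ j, (μ j : ℂ) ^ ((M : ℤ) * (∑ i, b i * κ i j - q * (r j + 1)))) * s v z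
  inv : ∀ g ∈ Γ, ∀ v z,
    s (onV g v) (onZ g z) * jac g ^ (q * M) * ∏ i, eval z (β i v) ^ (b i * M) =
      s v z * ∏ i, eval (onZ g z) (β i (onV g v)) ^ (b i * M)

end Pool.Agent.H896.IG
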