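import Pool.Agent.H896.IL.Lin
import Pool.Agent.H896.IL.Rel
import Pool.Agent.H896.IL.Stmt
import Pool.Agent.H896.IR.Real

/-!
# Factors of automorphy of invariant divisors
-/

set_option autoImplicit false

namespace Pool.Agent.H896.IG

open MvPolynomial Pool.Agent.T2H08.FB Pool.Agent.W594.SYZ2 Pool.Agent.W594.SYZ2.TQ
  Pool.Agent.TH735.AQ
open Pool.Agent.T2H08 Pool.Agent.H896.IQ

variable {n c : ℕ} {r : Fin c → ℕ} {Γ : Subgroup (Trans n r)}

variable {N : ℕ} {β : Fin N → (Fin n → ℂ) → MvPolynomial (Co r) ℂ} {κ : Fin N → Fin c → ℕ}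
  {b : Fin N → ℕ} {e : Trans n r → (Fin n → ℂ) → ℂ}

/-- a function which kills the equation is zero -/
theorem eq_zero_of_mul {P : (Fin n → ℂ) → MvPolynomial (Co r) ℂ} {k : Fin c → ℕ}
    (hP : FQ.IsEffective P k) {f : (Fin n → ℂ) → ℂ} (hf : Differentiable ℂ f)
    (h : ∀ v z, f v * eval z (P v) = 0) (v : Fin n → ℂ) : f v = 0 := by
  by_contra hne
  obtain ⟨v1, hv1⟩ := hP.ne_zero
  obtain ⟨I, hI⟩ := MvPolynomial.ne_zero_iff.1 hv1
  obtain ⟨v2, h1, h2⟩ := Pool.Agent.TH735.AQ.exists_common hf (hP.holo I) ⟨v, hne⟩ ⟨v1, hI⟩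
  have h3 : P v2 ≠ 0 := fun h0 => h2 (by rw [h0, coeff_zero])
  obtain ⟨z, hz⟩ := IR.exists_eval_ne h3
  exact mul_ne_zero h1 hz (h v2 z)

theorem scal_eq_mulBy (μ : Fin c → ℂˣ) (z : Co r → ℂ) : FQ.scal μ z = mulBy μ z := rfl

/-- **The factor of automorphy of an invariant divisor.** -/
theorem lin_of_eq {P : (Fin n → ℂ) → MvPolynomial (Co r) ℂ}
    {k : Fin c → ℕ} (hP : FQ.IsEffective P k) (hholo : ∀ g ∈ Γ, Differentiable ℂ (e g))
    (hne : ∀ g ∈ Γ, ∀ v, e g v ≠ 0)
    (heq : ∀ g ∈ Γ, ∀ v z, eval (onZ g z) (P (onV g v)) = e g v * eval z (P v)) :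
    IsLin Γ (fun j => (k j : ℤ)) e := by
  classical
  have hgd : ∀ g ∈ Γ, Differentiable ℂ fun v => onV g v := by
    intro g _
    have h1 : Differentiable ℂ fun v : Fin n → ℂ => act g (v, (0 : Co r → ℂ)) :=
      (act_differentiable g).comp (differentiable_id.prodMk (differentiable_const _))
    exact h1.fst
  refine ⟨hholo, hne, fun g hg h hh v => ?_, fun g hg ν hν v => ?_, fun g hg π hπ j => ?_⟩
  · have h1 := eq_zero_of_mul hP (f := fun v => e (g * h) v - e g (onV h v) * e h v)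
      ((hholo _ (Γ.mul_mem hg hh)).sub (((hholo g hg).comp (hgd h hh)).mul (hholo h hh)))
      (fun v z => by
        have h2 := heq (g * h) (Γ.mul_mem hg hh) v z
        have h3 := heq g hg (onV h v) (onZ h z)
        have h4 := heq h hh v z
        rw [onZ_mul, onV_mul] at h2
        rw [h2, h4] at h3
        linear_combination h3) v
    exact sub_eq_zero.1 h1
  · have h1 := eq_zero_of_mul hP (f := fun v => e g v - ∏ j, (ν j : ℂ) ^ k j)
      ((hholo _ hg).sub (differentiable_const _))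
      (fun v z => by
        have h2 := heq g hg v z
        rw [hν.1, hν.2, ← scal_eq_mulBy, eval_scal (hP.homog v)] at h2
        linear_combination -h2) v
    rw [sub_eq_zero.1 h1]
    exact Finset.prod_congr rfl fun j _ => (zpow_natCast _ _).symm
  · obtain ⟨v, hv⟩ := hP.ne_zero
    obtain ⟨z, hz⟩ := IR.exists_eval_ne hv
    have h1 : ∀ μ : Fin c → ℂˣ, ∏ j, ((μ (π⁻¹ j) : ℂˣ) : ℂ) ^ k j = ∏ j, (μ j : ℂ) ^ k j := by
      intro μ
      have h2 := heq g hg v (mulBy μ z)
      have h3 := heq g hg v z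
      rw [hπ.mulBy, ← scal_eq_mulBy, ← scal_eq_mulBy, eval_scal (hP.homog _),
        eval_scal (hP.homog v), h3] at h2
      have h4 : e g v * eval z (P v) ≠ 0 := mul_ne_zero (hne g hg v) hz
      refine mul_right_cancel₀ h4 ?_
      linear_combination h2
    have h2 := h1 (fun i => if i = j then Units.mk0 (2 : ℂ) two_ne_zero else 1)
    rw [Finset.prod_eq_single (π j), Finset.prod_eq_single j] at h2
    · have h3 : π⁻¹ (π j) = j := π.symm_apply_apply j
      simp only [h3, if_true, Units.val_mk0] at h2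
      have h4 : (2 : ℕ) ^ k (π j) = 2 ^ k j := by exact_mod_cast h2
      have h5 := Nat.pow_right_injective (le_refl 2) h4
      change ((k (π j) : ℕ) : ℤ) = k j
      rw [h5]
    · intro i _ hi
      simp [hi]
    · intro h
      exact absurd (Finset.mem_univ _) h
    · intro i _ hi
      have h3 : π⁻¹ i ≠ j := fun h0 => hi (by
        rw [← h0]
        exact (π.apply_symm_apply i).symm)
      change ((if π⁻¹ i = j then Units.mk0 (2 : ℂ) two_ne_zero else 1 : ℂˣ) : ℂ) ^ k i = 1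
      rw [if_neg h3, Units.val_one, one_pow]
    · intro h
      exact absurd (Finset.mem_univ _) h

theorem r_le {g : Trans n r} {π : Equiv.Perm (Fin c)} (hg : Permutes g π) (j : Fin c) :
    r j ≤ r (π j) := by
  let A : (Fin (r j + 1) → ℂ) →ₗ[ℂ] (Fin (r (π j) + 1) → ℂ) :=
    { toFun := fun x i => onZ g (inc j x) ⟨π j, i⟩
      map_add' := fun x y => by
        funext i
        unfold onZ
        rw [map_add, map_add]
        rfl
      map_smul' := fun a x => by
        funext i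
        unfold onZ
        rw [map_smul, map_smul]
        rfl }
  have hA : Function.Injective A := by
    rw [← LinearMap.ker_eq_bot, LinearMap.ker_eq_bot']
    intro x hx
    have h1 := hg (inc j x) j
    have h2 : ∑ i, ‖onZ g (inc j x) ⟨π j, i⟩‖ ^ 2 = 0 := by
      refine Finset.sum_eq_zero fun i _ => ?_
      have h3 : onZ g (inc j x) ⟨π j, i⟩ = 0 := congrFun hx i
      rw [h3, norm_zero]
      norm_num
    rw [h2] at h1
    funext i
    have h3 := (Finset.sum_eq_zero_iff_of_nonneg (fun i _ => by positivity)).1 h1.symm i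
      (Finset.mem_univ _)
    rw [inc_same] at h3
    simpa using h3
  have h1 := LinearMap.finrank_le_finrank_of_injective hA
  rw [Module.finrank_fintype_fun_eq_card, Module.finrank_fintype_fun_eq_card, Fintype.card_fin,
    Fintype.card_fin] at h1
  omega

theorem r_perm {g : Trans n r} {π : Equiv.Perm (Fin c)} (hg : Permutes g π) (j : Fin c) :
    r (π j) = r j := by
  refine le_antisymm ?_ (r_le hg j)
  have h1 := r_le hg.inv (π j)
  have h2 : π⁻¹ (π j) = j := π.symm_apply_apply j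
  rwa [h2] at h1

/-- twisting with the canonical bundle -/
theorem lin_twist {d : Fin c → ℤ} (h : IsLin Γ d e) (q : ℕ) :
    IsLin Γ (fun j => d j - q * (r j + 1)) fun g v => e g v * (jac g ^ q)⁻¹ := by
  refine ⟨fun g hg => (h.holo g hg).mul_const _, fun g hg v => mul_ne_zero (h.ne_zero g hg v)
    (inv_ne_zero (pow_ne_zero _ (jac_ne_zero g))), fun g hg g' hg' v => ?_,
    fun g hg ν hν v => ?_, fun g hg π hπ j => ?_⟩
  · rw [h.mul g hg g' hg', jac_mul, mul_pow, mul_inv]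
    ring
  · rw [h.triv g hg ν hν, jac_triv hν, ← Finset.prod_pow, ← Finset.prod_inv_distrib,
      ← Finset.prod_mul_distrib]
    refine Finset.prod_congr rfl fun j _ => ?_
    rw [zpow_sub₀ (Units.ne_zero _), div_eq_mul_inv]
    congr 2
    rw [← pow_mul, mul_comm (r j + 1) q, ← zpow_natCast]
    push_cast
    rfl
  · rw [h.perm g hg π hπ, r_perm hπ]

/-- the multiple of a Chern form -/
theorem chern_pow {H : (Fin n → ℂ) → (Fin n → ℂ) → ℂ} (h : HasChernForm Γ e H) (N : ℕ)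
    {e' : Trans n r → (Fin n → ℂ) → ℂ}
    (he' : ∀ g ∈ Γ, ∀ v, ‖e' g v‖ = ‖e g v‖ ^ N) :
    HasChernForm Γ e' (fun v w => (N : ℂ) * H v w) := by
  obtain ⟨hH, F, hF, hFe⟩ := h
  refine ⟨⟨fun u v w => ?_, fun a v w => ?_, fun v w => ?_⟩, fun v => (N : ℂ) * F v,
      hF.const_mul _, fun g hg v => ?_⟩
  · simp only [hH.add_left]
    ring
  · simp only [hH.smul_left]
    ring
  · simp only [map_mul, map_natCast, ← hH.symm]
  · have h1 : ‖e' g v‖ ^ 2 = (‖e g v‖ ^ 2) ^ N := by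
      rw [he' g hg, ← pow_mul, ← pow_mul, mul_comm]
    have h2 : ∀ x : ℂ, ((N : ℂ) * x).re = N * x.re := by
      intro x
      have : ((N : ℕ) : ℂ) = ((N : ℝ) : ℂ) := by push_cast; rfl
      rw [this, Complex.re_ofReal_mul]
    rw [h1, hFe g hg, ← Real.exp_nat_mul]
    congr 1
    simp only [h2]
    ring

theorem IsFactor.eq' (he : IsFactor Γ β b e) {g : Trans n r} (hg : g ∈ Γ) (v : Fin n → ℂ)
    (z : Co r → ℂ) : eval (onZ g z) (∏ i, β i (onV g v) ^ b i) =
      e g v * eval z (∏ i, β i v ^ b i) := by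
  have h1 := he.eq g hg v z
  simp only [map_prod, map_pow]
  exact h1

theorem exists_pt_eval {p : MvPolynomial (Co r) ℂ} (hp : p ≠ 0) :
    ∃ z, IsPt z ∧ eval z p ≠ 0 := by
  have h1 : p * ∏ s : Co r, X s ≠ 0 :=
    mul_ne_zero hp (Finset.prod_ne_zero_iff.2 fun s _ => X_ne_zero s)
  obtain ⟨z, hz⟩ := IR.exists_eval_ne h1
  rw [map_mul, map_prod] at hz
  refine ⟨z, fun j => ⟨0, ?_⟩, left_ne_zero_of_mul hz⟩
  have h2 := (Finset.prod_ne_zero_iff.1 (right_ne_zero_of_mul hz)) ⟨j, 0⟩ (Finset.mem_univ _)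
  rwa [eval_X] at h2

/-- **Base point freeness for normal crossing divisors.** -/
theorem semiample_snc (hΓ : IsIsometryGroup Γ) (hβ : ∀ i, IsEffective (β i) (κ i))
    (hnc : IsNormalCrossing β) {q : ℕ} (hq : 1 ≤ q) (hb : ∀ i, 1 ≤ b i ∧ b i ≤ q)
    (he : IsFactor Γ β b e) {H : (Fin n → ℂ) → (Fin n → ℂ) → ℂ} (hH : HasChernForm Γ e H)
    (hnef : ∀ j, q * (r j + 1) ≤ ∑ i, b i * κ i j) :
    ∃ M : ℕ, 1 ≤ M ∧ Even M ∧ ∀ v z, IsPt z → ∃ s, IsLogForm Γ β κ q b M s ∧ s v z ≠ 0 := by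
  classical
  obtain ⟨P0, hP0, hQ⟩ := IR.exists_flat (isUQ hΓ)
  obtain ⟨N0, hN0, hN0'⟩ := exists_exp hΓ
  have heff : FQ.IsEffective (fun v => ∏ i, β i v ^ b i) (fun j => ∑ i, b i * κ i j) :=
    IR.eff_prod (fun i => eff_conv (hβ i)) b Finset.univ
  have hlin : IsLin Γ (fun j => ((∑ i, b i * κ i j : ℕ) : ℤ)) e :=
    lin_of_eq heff he.holo he.ne_zero fun g hg v z => he.eq' hg v z
  have hlin' := lin_twist hlin q
  have hN : ∀ g ∈ Γ, ∀ v, onV g v = v → ∃ ν, Triv (g ^ (N0 * 2)) ν := by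
    intro g hg v hv
    obtain ⟨ν, hν⟩ := hN0' g hg v hv
    rw [pow_mul]
    exact ⟨_, hν.pow 2⟩
  obtain ⟨N', hN'⟩ : ∃ N', N' = N0 * 2 := ⟨_, rfl⟩
  rw [← hN'] at hN
  have hNe : Even N' := by
    rw [hN']
    exact even_two.mul_left N0
  have hN1 : 1 ≤ N' := by omega
  -- the boundary is nef
  have hDn : IsNefForm fun v w => (N' : ℂ) * H v w := by
    have h1 : (hlin.toLB hΓ hN).IsChernForm fun v w => (N' : ℂ) * H v w :=
      chern_pow hH N' fun g _ v => norm_pow _ _
    refine (nef_of_section hΓ h1 le_rfl (s := fun v z => (eval z (∏ i, β i v ^ b i)) ^ N')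
      ⟨?_, ?_, ?_⟩ ?_).1
    · exact (FQ.holo_eval heff.holo heff.homog).pow N'
    · intro μ v z
      rw [← scal_eq_mulBy, eval_scal (heff.homog v), mul_pow]
      congr 1
      rw [← Finset.prod_pow]
      refine Finset.prod_congr rfl fun j _ => ?_
      have h2 : ((1 : ℕ) : ℤ) * (hlin.toLB hΓ hN).deg j =
          (N' : ℤ) * ((∑ i, b i * κ i j : ℕ) : ℤ) := by
        rw [Nat.cast_one, one_mul]
        rfl
      rw [h2, mul_comm, zpow_mul, zpow_natCast, zpow_natCast]
    · intro g hg v z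
      rw [he.eq' hg, mul_pow, pow_one]
      rfl
    · obtain ⟨v, hv⟩ := heff.ne_zero
      obtain ⟨z, hz, hz0⟩ := exists_pt_eval hv
      exact ⟨v, z, hz, pow_ne_zero _ hz0⟩
  obtain ⟨L, hL⟩ : ∃ L : LineBundle Γ, L = hlin'.toLB hΓ hN := ⟨_, rfl⟩
  have hLdeg : ∀ j, L.deg j = N' * (((∑ i, b i * κ i j : ℕ) : ℤ) - q * (r j + 1)) := by
    intro j
    rw [hL]
    rfl
  have hLe : ∀ g v, L.e g v = (e g v * (jac g ^ q)⁻¹) ^ N' := by
    intro g v
    rw [hL]
    rfl
  have hLc : L.IsChernForm fun v w => (N' : ℂ) * H v w := by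
    refine chern_pow hH N' fun g hg v => ?_
    rw [hLe, norm_pow, norm_mul, norm_inv, norm_pow, norm_jac hΓ hg, one_pow, inv_one, mul_one]
  have hLd0 : ∀ j, 0 ≤ L.deg j := by
    intro j
    rw [hLdeg]
    refine mul_nonneg (Nat.cast_nonneg _) (sub_nonneg.2 ?_)
    have h1 := hnef j
    exact_mod_cast h1
  have hLn : L.IsNef fun v w => (N' : ℂ) * H v w := ⟨hDn, hLd0⟩
  have hplu : IsLogPluricanonical L (q * N') (fun _ => 1) (1 : MvPolynomial (Co r) ℂ)
      (fun _ => 0) (fun v => ∏ i, β i v ^ (b i * N')) (fun j => ∑ i, b i * N' * κ i j) := by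
    refine ⟨fun j => ?_, fun g hg π hπ v z => ?_⟩
    · rw [hLdeg]
      push_cast
      have h1 : ∑ i, (b i : ℤ) * N' * κ i j = N' * ∑ i, (b i : ℤ) * κ i j := by
        rw [Finset.mul_sum]
        exact Finset.sum_congr rfl fun i _ => by ring
      rw [h1]
      ring
    · have h1 : ∀ v z, eval z (∏ i, β i v ^ (b i * N')) =
          eval z (∏ i, β i v ^ b i) ^ N' := by
        intro v z
        simp only [map_prod, map_pow]
        rw [← Finset.prod_pow]
        exact Finset.prod_congr rfl fun i _ => pow_mul _ _ _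
      have h2 : (((Equiv.Perm.sign π : ℤ) : ℂ) * jac g) ^ (q * N') = (jac g ^ q) ^ N' := by
        obtain ⟨t, ht⟩ := hNe
        have h3 : (((Equiv.Perm.sign π : ℤ) : ℂ)) ^ 2 = 1 := by
          rcases Int.units_eq_one_or (Equiv.Perm.sign π) with h | h
          · rw [h]
            simp
          · rw [h]
            simp
        rw [mul_pow, ht, ← two_mul, show q * (2 * t) = 2 * (q * t) by ring, pow_mul, h3, one_pow,
          one_mul, show 2 * (q * t) = q * (2 * t) by ring, pow_mul]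
      rw [h1, h1, h2, he.eq' hg, hLe]
      simp only [map_one, mul_one, one_pow]
      have h3 : jac g ^ q ≠ 0 := pow_ne_zero _ (jac_ne_zero g)
      rw [mul_pow, mul_pow, inv_pow]
      field_simp
  have hsub1 : sub P0 (1 : MvPolynomial (Co r) ℂ) = 1 := map_one _
  have hβ' : ∀ i, FQ.IsEffective (fun v => sub P0 (β i v)) (κ i) := fun i =>
    IR.eff_chg hP0 (eff_conv (hβ i))
  have hrel : IL.WRel (q * N') L.deg (sub P0 (1 : MvPolynomial (Co r) ℂ))
      fun v => sub P0 (∏ i, β i v ^ (b i * N')) := by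
    have h1 : (fun v => sub P0 (∏ i, β i v ^ (b i * N'))) =
        fun v => ∏ i, (sub P0 (β i v)) ^ (b i * N') := by
      funext v
      simp only [map_prod, map_pow]
    rw [h1, hsub1]
    refine IL.wrel_of_disc hβ' IL.isHomog_one (Nat.mul_pos hq hN1)
      (fun i => Nat.mul_pos (hb i).1 hN1) hplu.deg hLd0 ?_
    refine IL.disc_of_snc hβ' one_ne_zero (IL.snc_chg hP0 (fun i => eff_conv (hβ i)) hnc)
      fun i => ?_
    have h2 : (0 : ℝ) < ((q * N' : ℕ) : ℝ) := by exact_mod_cast Nat.mul_pos hq hN1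
    rw [div_le_one h2]
    exact_mod_cast Nat.mul_le_mul_right N' (hb i).2
  obtain ⟨M', hM', h⟩ := semiample_of_rel hΓ hP0 hQ
    (by rw [hsub1]; exact IL.ram_one _)
    (IR.eff_prod (fun i => eff_conv (hβ i)) (fun i => b i * N') Finset.univ) hplu hrel hLc hLn
  refine ⟨N' * M', Nat.mul_pos hN1 hM', hNe.mul_right M', fun v z hz => ?_⟩
  obtain ⟨s, hs, hs0⟩ := h v z hz
  refine ⟨s, ⟨hs.holo, fun μ v z => ?_, fun g hg v z => ?_⟩, hs0⟩
  · rw [hs.homog]
    congr 1
    refine Finset.prod_congr rfl fun j _ => ?_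
    congr 1
    rw [hLdeg]
    push_cast
    ring
  · have h1 : ∀ v z, ∏ i, eval z (β i v) ^ (b i * (N' * M')) =
        (∏ i, eval z (β i v) ^ b i) ^ (N' * M') := by
      intro v z
      rw [← Finset.prod_pow]
      exact Finset.prod_congr rfl fun i _ => pow_mul _ _ _
    rw [h1, h1, he.eq g hg, hs.eq g hg, hLe, ← pow_mul, mul_pow, mul_pow, inv_pow, pow_mul,
      pow_mul (jac g)]
    have h3 : (jac g ^ q) ^ (N' * M') ≠ 0 := pow_ne_zero _ (pow_ne_zero _ (jac_ne_zero g))
    field_simp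

end Pool.Agent.H896.IG
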