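import Pool.Agent.H896.IR.Nef

/-!
# Base point freeness from a relation between the weights

The weight of the equation of the boundary, of the ramification divisor and of the volume form satisfy a
relation for each one-parameter group which preserves the pair; this is true for log canonical pairs.
-/

set_option autoImplicit false

namespace Pool.Agent.H896.IL

open Pool.Agent.T2H08.FQ Pool.Agent.W594.SYZ2 Pool.Agent.W594.SYZ2.TQ Pool.Agent.TH735.AQ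
  MvPolynomial MeasureTheory Pool.Agent.H896.IQ Pool.Agent.H896.IR

variable {n c : ℕ} {r : Fin c → ℕ}

/-- the exponent of the character -/
def xv (m : ℕ) (deg : Fin c → ℤ) (I J : Co r →₀ ℕ) (ι : ∀ j, Fin (r j + 1)) : Co r → ℤ :=
  fun s => (I s : ℤ) - m - m * J s - if s.2 = ι s.1 then deg s.1 else 0

/-- The relation between the weights of the one-parameter groups which preserve the divisors of `β` and
of `σ`. -/
def WRel (m : ℕ) (deg : Fin c → ℤ) (σ : MvPolynomial (Co r) ℂ)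
    (β : (Fin n → ℂ) → MvPolynomial (Co r) ℂ) : Prop :=
  ∀ (w : Co r → ℕ) (W W' : ℕ), (∀ J ∈ σ.support, wt w J = W') →
    (∀ v, ∀ I ∈ (β v).support, wt w I = W) → ∀ ι : ∀ j, Fin (r j + 1),
    (W : ℤ) = m * W' + m * ∑ s, (w s : ℤ) + ∑ j, deg j * w ⟨j, ι j⟩

theorem sum_at {M : Type*} [AddCommMonoid M] (ι : ∀ j, Fin (r j + 1)) (f : Co r → M) :
    ∑ s : Co r, (if s.2 = ι s.1 then f s else 0) = ∑ j, f ⟨j, ι j⟩ := by
  rw [Fintype.sum_sigma]
  refine Finset.sum_congr rfl fun j _ => ?_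
  rw [Finset.sum_eq_single (ι j)]
  · rw [if_pos rfl]
  · intro i _ hi
    exact if_neg hi
  · intro h
    exact absurd (Finset.mem_univ _) h

theorem prod_at (ι : ∀ j, Fin (r j + 1)) (χ : Co r → ℂˣ) (d : Fin c → ℤ) :
    ∏ s : Co r, χ s ^ (if s.2 = ι s.1 then d s.1 else 0) = ∏ j, χ ⟨j, ι j⟩ ^ d j := by
  rw [Fintype.prod_sigma]
  refine Finset.prod_congr rfl fun j _ => ?_
  rw [Finset.prod_eq_single (ι j)]
  · rw [if_pos rfl]
  · intro i _ hi
    change χ ⟨j, i⟩ ^ (if i = ι j then d j else 0) = 1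
    rw [if_neg hi, zpow_zero]
  · intro h
    exact absurd (Finset.mem_univ _) h

/-- the pairing of a weight with the exponent -/
theorem pair_xv {R : Type*} [CommRing R] (w : Co r → R) (m : ℕ) (deg : Fin c → ℤ)
    (I J : Co r →₀ ℕ) (ι : ∀ j, Fin (r j + 1)) :
    ∑ s, w s * ((xv m deg I J ι s : ℤ) : R) =
      ∑ s, w s * (I s : R) - m * ∑ s, w s - m * (∑ s, w s * (J s : R)) -
        ∑ j, (deg j : R) * w ⟨j, ι j⟩ := by
  have h1 : ∀ s : Co r, w s * ((xv m deg I J ι s : ℤ) : R) =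
      w s * (I s : R) - m * w s - m * (w s * (J s : R)) -
        (if s.2 = ι s.1 then (deg s.1 : R) * w s else 0) := by
    intro s
    unfold xv
    push_cast
    split_ifs with h
    · ring
    · ring
  rw [Finset.sum_congr rfl fun s _ => h1 s, Finset.sum_sub_distrib, Finset.sum_sub_distrib,
    Finset.sum_sub_distrib, ← Finset.mul_sum, ← Finset.mul_sum,
    sum_at ι (fun s : Co r => (deg s.1 : R) * w s)]

/-- Multiples of the exponents are combinations of differences of exponents. -/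
theorem exists_NL {k l : Fin c → ℕ} {σ : MvPolynomial (Co r) ℂ}
    {β : (Fin n → ℂ) → MvPolynomial (Co r) ℂ} (hβ : IsEffective β k) (hl : IsHomog l σ)
    {m : ℕ} {deg : Fin c → ℤ} (hdeg : ∀ j, deg j + m * (l j + (r j + 1)) = k j)
    (hrel : WRel m deg σ β) {I0 J0 : Co r →₀ ℕ} (hI0 : ∃ v, coeff I0 (β v) ≠ 0)
    (hJ0 : J0 ∈ σ.support) :
    ∃ N : ℕ, 1 ≤ N ∧ ∀ ι : ∀ j, Fin (r j + 1),
      N • xv m deg I0 J0 ι ∈ AddSubgroup.closure (Dif β σ) := by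
  classical
  have h1 : ∀ ι : ∀ j, Fin (r j + 1), ∃ N : ℕ, 1 ≤ N ∧
      N • xv m deg I0 J0 ι ∈ AddSubgroup.closure (Dif β σ) := by
    intro ι
    by_contra hcon
    push Not at hcon
    obtain ⟨w, hw, hw0⟩ := exists_form hcon
    obtain ⟨v1, hv1⟩ := hI0
    -- natural weights
    obtain ⟨D, hD, z, hz⟩ : ∃ D : ℕ, 1 ≤ D ∧ ∃ z : Co r → ℤ, ∀ s, (z s : ℚ) = D * w s := by
      refine ⟨∏ s, (w s).den, Finset.prod_pos fun s _ => (w s).pos, ?_⟩
      have h2 : ∀ s, ∃ b : ℤ, (b : ℚ) = ((∏ s, (w s).den : ℕ) : ℚ) * w s := by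
        intro s
        obtain ⟨t, ht⟩ := Finset.dvd_prod_of_mem (fun s => (w s).den) (Finset.mem_univ s)
        refine ⟨t * (w s).num, ?_⟩
        have h3 : (∏ s, (w s).den) = (w s).den * t := ht
        rw [h3]
        push_cast
        have h4 : ((w s).den : ℚ) * w s = (w s).num := by
          rw [mul_comm]
          exact Rat.mul_den_eq_num (w s)
        linear_combination -(t : ℚ) * h4
      choose z hz using h2
      exact ⟨z, hz⟩
    obtain ⟨C, hC⟩ : ∃ C : ℕ, ∀ s, 0 ≤ z s + C := by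
      refine ⟨∑ s, (z s).natAbs, fun s => ?_⟩
      have h2 : (z s).natAbs ≤ ∑ s, (z s).natAbs :=
        Finset.single_le_sum (f := fun s => (z s).natAbs) (fun _ _ => Nat.zero_le _)
          (Finset.mem_univ s)
      omega
    obtain ⟨y, hy⟩ : ∃ y : Co r → ℕ, ∀ s, (y s : ℚ) = D * w s + C := by
      refine ⟨fun s => (z s + C).toNat, fun s => ?_⟩
      have h2 := Int.toNat_of_nonneg (hC s)
      have h3 : (((z s + C).toNat : ℤ) : ℚ) = ((z s + C : ℤ) : ℚ) := by rw [h2]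
      push_cast at h3
      rw [← hz]
      exact h3
    have hwt : ∀ I : Co r →₀ ℕ, (wt y I : ℚ) = D * (∑ s, w s * I s) + C * ∑ s, (I s : ℚ) := by
      intro I
      unfold wt
      push_cast
      rw [Finset.mul_sum, Finset.mul_sum, ← Finset.sum_add_distrib]
      refine Finset.sum_congr rfl fun s _ => ?_
      rw [hy]
      ring
    have hsum : ∀ (e : Fin c → ℕ) (I : Co r →₀ ℕ), (∀ j, ∑ i, I ⟨j, i⟩ = e j) →
        ∑ s, (I s : ℚ) = ∑ j, (e j : ℚ) := by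
      intro e I hI
      rw [Fintype.sum_sigma]
      refine Finset.sum_congr rfl fun j _ => ?_
      rw [← hI j, Nat.cast_sum]
    have h2 := hrel y (wt y I0) (wt y J0)
      (fun J hJ => by
        have h3 := hw (fun s => (J s : ℤ) - J0 s) (Or.inr ⟨J, hJ, J0, hJ0, rfl⟩)
        push_cast at h3
        simp only [mul_sub] at h3
        rw [Finset.sum_sub_distrib, sub_eq_zero] at h3
        have h4 : (wt y J : ℚ) = wt y J0 := by
          rw [hwt, hwt, h3, hsum l J (hl J hJ), hsum l J0 (hl J0 hJ0)]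
        exact_mod_cast h4)
      (fun v I hI => by
        have h3 := hw (fun s => (I s : ℤ) - I0 s) (Or.inl ⟨I, I0, ⟨v, mem_support_iff.1 hI⟩,
          ⟨v1, hv1⟩, rfl⟩)
        push_cast at h3
        simp only [mul_sub] at h3
        rw [Finset.sum_sub_distrib, sub_eq_zero] at h3
        have h4 : (wt y I : ℚ) = wt y I0 := by
          rw [hwt, hwt, h3, hsum k I (hβ.homog v I hI),
            hsum k I0 (hβ.homog v1 I0 (mem_support_iff.2 hv1))]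
        exact_mod_cast h4) ι
    apply hw0
    have h3 := pair_xv (fun s => (y s : ℚ)) m deg I0 J0 ι
    have h4 := pair_xv w m deg I0 J0 ι
    have h5 := pair_xv (fun _ => (1 : ℚ)) m deg I0 J0 ι
    have h6 : ∑ s, ((y s : ℚ) * (I0 s : ℚ)) = wt y I0 := by
      unfold wt
      push_cast
      rfl
    have h7 : ∑ s, ((y s : ℚ) * (J0 s : ℚ)) = wt y J0 := by
      unfold wt
      push_cast
      rfl
    have h8 : ((wt y I0 : ℤ) : ℚ) = ((m * (wt y J0 : ℤ) + m * ∑ s, (y s : ℤ) +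
      ∑ j, deg j * (y ⟨j, ι j⟩ : ℤ) : ℤ) : ℚ) := by rw [h2]
    push_cast at h8
    have h9 : ∑ s, (y s : ℚ) * ((xv m deg I0 J0 ι s : ℤ) : ℚ) = 0 := by
      rw [h3, h6, h7, h8]
      ring
    have h10 : ∑ s : Co r, (1 : ℚ) * ((xv m deg I0 J0 ι s : ℤ) : ℚ) = 0 := by
      rw [h5]
      simp only [one_mul, mul_one]
      rw [hsum k I0 (hβ.homog v1 I0 (mem_support_iff.2 hv1)), hsum l J0 (hl J0 hJ0)]
      have h11 : ∑ _s : Co r, (1 : ℚ) = ∑ j, ((r j : ℚ) + 1) := by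
        rw [Fintype.sum_sigma]
        refine Finset.sum_congr rfl fun j _ => ?_
        simp
      rw [h11, Finset.mul_sum, Finset.mul_sum, ← Finset.sum_sub_distrib,
        ← Finset.sum_sub_distrib, ← Finset.sum_sub_distrib]
      refine Finset.sum_eq_zero fun j _ => ?_
      have h12 : ((deg j + m * (l j + (r j + 1)) : ℤ) : ℚ) = ((k j : ℤ) : ℚ) := by rw [hdeg j]
      push_cast at h12
      linear_combination -h12
    have h11 : ∑ s, (y s : ℚ) * ((xv m deg I0 J0 ι s : ℤ) : ℚ) =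
        D * (∑ s, w s * ((xv m deg I0 J0 ι s : ℤ) : ℚ)) +
          C * ∑ s : Co r, (1 : ℚ) * ((xv m deg I0 J0 ι s : ℤ) : ℚ) := by
      rw [Finset.mul_sum, Finset.mul_sum, ← Finset.sum_add_distrib]
      refine Finset.sum_congr rfl fun s _ => ?_
      rw [hy]
      ring
    rw [h9, h10, mul_zero, add_zero] at h11
    have h12 : (D : ℚ) ≠ 0 := by positivity
    exact (mul_eq_zero.1 h11.symm).resolve_left h12
  choose N hN1 hN using h1
  refine ⟨∏ x, N x, Nat.succ_le_of_lt (Finset.prod_pos fun x _ => hN1 x), fun ι => ?_⟩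
  obtain ⟨M, hM⟩ := Finset.dvd_prod_of_mem N (Finset.mem_univ ι)
  rw [hM, mul_comm, mul_smul]
  exact nsmul_mem (hN _) M

/-- The properties of the ramification divisor which are used: they hold also for `ρ = 1`, `σ = 1`. -/
structure Ram (Γ : Subgroup (Grp n r)) (ρ : (Fin n → ℂ) → ℂ) (σ : MvPolynomial (Co r) ℂ)
    (l : Fin c → ℕ) : Prop where
  holo : Differentiable ℂ ρ
  rne : ∃ v, ρ v ≠ 0
  mir : ∃ G ≤ GD Γ, ∀ v, ρ v = 0 ↔ OnMirror G v
  ne_zero : σ ≠ 0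
  homog : IsHomog l σ
  inv : ∀ g ∈ Γ, ∃ a : ℂ, ∀ z, eval (g.2 z) σ = a * eval z σ

theorem ram_of (Γ : Subgroup (Grp n r)) {ρ : (Fin n → ℂ) → ℂ} {σ : MvPolynomial (Co r) ℂ}
    {l : Fin c → ℕ} (h : IsRamification Γ ρ σ l) : Ram Γ ρ σ l :=
  ⟨h.holo, h.rne, ⟨GV Γ, GV_le, h.rzero⟩, h.ne_zero, h.homog, h.inv⟩

theorem isHomog_one : IsHomog (fun _ => 0) (1 : MvPolynomial (Co r) ℂ) := by
  intro I hI j
  rw [mem_support_iff, coeff_one] at hI
  have h1 : I = 0 := by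
    by_contra h
    rw [if_neg (Ne.symm h)] at hI
    exact hI rfl
  subst h1
  simp

theorem ram_one (Γ : Subgroup (Grp n r)) : Ram Γ (fun _ => 1) (1 : MvPolynomial (Co r) ℂ)
    (fun _ => 0) := by
  refine ⟨differentiable_const _, ⟨0, one_ne_zero⟩, ⟨⊥, bot_le, fun v => ?_⟩, one_ne_zero,
    isHomog_one, fun g _ => ⟨1, fun z => by simp⟩⟩
  constructor
  · intro h
    exact absurd h one_ne_zero
  · rintro ⟨γ, hγ, hne, -⟩
    exact absurd (Subgroup.mem_bot.1 hγ) hne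

section

variable {Γ : Subgroup (Grp n r)}
  {L : LineBundle Γ} {ρ : (Fin n → ℂ) → ℂ} {σ : MvPolynomial (Co r) ℂ} {l k : Fin c → ℕ}
  {β : (Fin n → ℂ) → MvPolynomial (Co r) ℂ} {m : ℕ} {H : (Fin n → ℂ) → (Fin n → ℂ) → ℂ}
  {f : (Fin n → ℂ) → ℂ}

theorem inv_diag' (hρ : Ram Γ ρ σ l) (γ : GD Γ) :
    ∃ a : ℂ, ∀ z, eval (diag (chiOf γ) z) σ = a * eval z σ := by
  obtain ⟨a, ha⟩ := hρ.inv (γ, diag (chiOf γ)) (mem_GD.1 γ.2).choose_spec
  exact ⟨a, fun z => ha z⟩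

/-- The value of the character. -/
theorem chi_value' (hΓ : IsFlatQuotient Γ) (hρ : Ram Γ ρ σ l)
    (hβ : IsEffective β k) (hL : IsLogPluricanonical L m ρ σ l β k) (hH : IsHermitian H)
    (hn : IsNefForm H) (ι : ∀ j, Fin (r j + 1)) (hpot : IsPot (secL L ι) H f)
    {I : Co r →₀ ℕ} (hI : ∃ v, coeff I (β v) ≠ 0) {b : Fin n → ℂ} (hb : b ∈ latt (GD Γ))
    (hbK : b ∈ KN (GD Γ) (ker hH)) {a : ℂ}
    (ha : ∀ z, eval (diag (chiOf (tr b hb)) z) σ = a * eval z σ) :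
    kap L.deg ι I m (chiOf (tr b hb)) a * chi (secL L ι) f b = 1 := by
  classical
  have hG := torus_GD hΓ
  obtain ⟨v₀, hv₀, hv₀'⟩ := exists_common (hβ.holo I) hρ.holo hI hρ.rne
  have hnu : ∀ (b : Fin n → ℂ) (hb : b ∈ latt (GD Γ)), ∃ a : ℂ,
      ∀ z, eval (diag (chiOf (tr b hb)) z) σ = a * eval z σ := fun b hb =>
    inv_diag' hρ (tr b hb)
  choose A hA using hnu
  obtain ⟨κ, hκ⟩ : ∃ κ : (Fin n → ℂ) → ℂ, ∀ (b : Fin n → ℂ) (hb : b ∈ latt (GD Γ)),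
      κ b = kap L.deg ι I m (chiOf (tr b hb)) (A b hb) :=
    exists_ext (P := fun b => b ∈ latt (GD Γ)) fun b hb =>
      kap L.deg ι I m (chiOf (tr b hb)) (A b hb)
  have hκ1 : ∀ b ∈ latt (GD Γ), b ∈ KN (GD Γ) (ker hH) → ‖κ b‖ = 1 := by
    intro b hb _
    have h1 : ∀ s, ‖(chiOf (tr b hb) s : ℂ)‖ = 1 := norm_chi hΓ (lft (tr b hb)).2
    rw [hκ b hb]
    exact norm_kap _ _ _ _ h1 (norm_sigma h1 hρ.ne_zero (hA b hb))
  have heq : ∀ (b : Fin n → ℂ) (hb : b ∈ latt (GD Γ)), b ∈ KN (GD Γ) (ker hH) →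
      ∀ v : Fin n → ℂ, coeff I (β (b + v)) * ρ v ^ m =
        κ b * (secL L ι).e (tr b hb) v * coeff I (β v) * ρ (b + v) ^ m := by
    intro b hb _ v
    rw [hκ b hb]
    exact eq_kap hL hρ.ne_zero ι I hb (hA b hb) v
  obtain ⟨G, hGG, hmz⟩ := hρ.mir
  have hmir : ¬ OnMirror G v₀ := fun h => hv₀' ((hmz v₀).2 h)
  have hzero : ∀ v, ρ v ^ m = 0 → OnMirror G v := fun v hv =>
    (hmz v).1 (eq_zero_of_pow_eq_zero hv)
  have hs : Differentiable ℂ fun v => ρ v ^ m := hρ.holo.pow m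
  have key : κ b * chi (secL L ι) f b = 1 :=
    kappa_one (M := secL L ι) (θ := fun v => coeff I (β v)) (s := fun v => ρ v ^ m)
      hGG hG hH hpot hn (hβ.holo I) hs hv₀ hmir hzero hκ1 heq b hb hbK
  have h1 : A b hb = a := by
    obtain ⟨z, hz⟩ : ∃ z, eval z σ ≠ 0 := by
      by_contra hcon
      push Not at hcon
      exact hρ.ne_zero (MvPolynomial.funext fun z => by rw [hcon, map_zero])
    exact mul_right_cancel₀ hz ((hA b hb z).symm.trans (ha z))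
  rw [hκ b hb, h1] at key
  exact key

/-- **The characters are roots of unity.** -/
theorem chi_root (hΓ : IsFlatQuotient Γ) (hρ : Ram Γ ρ σ l)
    (hβ : IsEffective β k) (hL : IsLogPluricanonical L m ρ σ l β k) (hH : IsHermitian H)
    (hn : IsNefForm H) (hrel : WRel m L.deg σ β) :
    ∃ N : ℕ, 1 ≤ N ∧ ∀ ι : ∀ j, Fin (r j + 1), IsPot (secL L ι) H f →
      ∀ b ∈ latt (GD Γ), b ∈ KN (GD Γ) (ker hH) → chi (secL L ι) f b ^ N = 1 := by
  classical
  obtain ⟨v1, hv1⟩ := hβ.ne_zero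
  obtain ⟨I0, hI0⟩ := MvPolynomial.support_nonempty.2 hv1
  obtain ⟨J0, hJ0⟩ := MvPolynomial.support_nonempty.2 hρ.ne_zero
  have hI0' : ∃ v, coeff I0 (β v) ≠ 0 := ⟨v1, mem_support_iff.1 hI0⟩
  obtain ⟨N, hN1, hN⟩ := exists_NL hβ hρ.homog hL.deg hrel hI0' hJ0
  refine ⟨N, hN1, fun ι hpot b hb hbK => ?_⟩
  obtain ⟨a, ha'⟩ := inv_diag' hρ (tr b hb)
  obtain ⟨χ, hχ⟩ : ∃ χ, χ = chiOf (tr b hb) := ⟨_, rfl⟩
  have hval : ∀ I : Co r →₀ ℕ, (∃ v, coeff I (β v) ≠ 0) →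
      (∏ s, (chiOf (tr b hb) s : ℂ) ^ I s)⁻¹ * (∏ s, (chiOf (tr b hb) s : ℂ)) ^ m * a ^ m *
        (∏ j, (chiOf (tr b hb) ⟨j, ι j⟩ : ℂ) ^ L.deg j) * chi (secL L ι) f b = 1 :=
    fun I hI => chi_value' hΓ hρ hβ hL hH hn ι hpot hI hb hbK ha'
  rw [← hχ] at ha' hval
  have hne : ∀ I : Co r →₀ ℕ, ∏ s, (χ s : ℂ) ^ I s ≠ 0 := fun I =>
    Finset.prod_ne_zero_iff.2 fun s _ => pow_ne_zero _ (Units.ne_zero _)
  have hEq : ∀ I I' : Co r →₀ ℕ, ∏ s, (χ s : ℂ) ^ I s = ∏ s, (χ s : ℂ) ^ I' s →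
      ∏ s, χ s ^ ((I s : ℤ) - I' s) = 1 := by
    intro I I' h
    apply Units.ext
    rw [Units.coe_prod, Units.val_one]
    have h1 : ∀ s, ((χ s ^ ((I s : ℤ) - I' s) : ℂˣ) : ℂ) = (χ s : ℂ) ^ I s * ((χ s : ℂ) ^ I' s)⁻¹ := by
      intro s
      rw [Units.val_zpow_eq_zpow_val, zpow_sub₀ (Units.ne_zero _), zpow_natCast, zpow_natCast,
        div_eq_mul_inv]
    rw [Finset.prod_congr rfl fun s _ => h1 s, Finset.prod_mul_distrib, Finset.prod_inv_distrib, h]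
    exact mul_inv_cancel₀ (hne I')
  have hone : ∀ x ∈ Dif β σ, ∏ s, χ s ^ x s = 1 := by
    rintro x (⟨I, I', hI, hI', rfl⟩ | ⟨J, hJ, J', hJ', rfl⟩)
    · refine hEq I I' ?_
      have h1 := hval I hI
      have h2 := hval I' hI'
      rw [← h2] at h1
      have h3 : (∏ s, (χ s : ℂ)) ^ m * a ^ m * (∏ j, (χ ⟨j, ι j⟩ : ℂ) ^ L.deg j) *
          chi (secL L ι) f b ≠ 0 := by
        intro h0
        have h4 : (∏ s, (χ s : ℂ) ^ I s)⁻¹ * ((∏ s, (χ s : ℂ)) ^ m * a ^ m *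
          (∏ j, (χ ⟨j, ι j⟩ : ℂ) ^ L.deg j) * chi (secL L ι) f b) = 1 := by
          rw [← hval I hI]
          ring
        rw [h0, mul_zero] at h4
        exact zero_ne_one h4
      have h4 : (∏ s, (χ s : ℂ) ^ I s)⁻¹ * ((∏ s, (χ s : ℂ)) ^ m * a ^ m *
          (∏ j, (χ ⟨j, ι j⟩ : ℂ) ^ L.deg j) * chi (secL L ι) f b) =
          (∏ s, (χ s : ℂ) ^ I' s)⁻¹ * ((∏ s, (χ s : ℂ)) ^ m * a ^ m *
          (∏ j, (χ ⟨j, ι j⟩ : ℂ) ^ L.deg j) * chi (secL L ι) f b) := by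
        linear_combination h1
      exact inv_injective (mul_right_cancel₀ h3 h4)
    · refine hEq J J' ?_
      rw [coeff_sigma ha' hJ, coeff_sigma ha' hJ']
  have h1 := char_closure χ hone (hN ι)
  have h2 : ∏ s, χ s ^ ((N • xv m L.deg I0 J0 ι) s) = (∏ s, χ s ^ xv m L.deg I0 J0 ι s) ^ N := by
    rw [← Finset.prod_pow]
    refine Finset.prod_congr rfl fun s _ => ?_
    rw [Pi.smul_apply, nsmul_eq_mul, mul_comm, zpow_mul, zpow_natCast]
  rw [h2] at h1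
  have h3 : ∏ s, χ s ^ xv m L.deg I0 J0 ι s = (∏ s, χ s ^ I0 s) * ((∏ s, χ s) ^ m)⁻¹ *
      ((∏ s, χ s ^ J0 s) ^ m)⁻¹ * (∏ j, χ ⟨j, ι j⟩ ^ L.deg j)⁻¹ := by
    rw [← prod_at ι χ L.deg, ← Finset.prod_pow, ← Finset.prod_pow, ← Finset.prod_inv_distrib,
      ← Finset.prod_inv_distrib, ← Finset.prod_inv_distrib, ← Finset.prod_mul_distrib,
      ← Finset.prod_mul_distrib, ← Finset.prod_mul_distrib]
    refine Finset.prod_congr rfl fun s _ => ?_
    unfold xv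
    rw [zpow_sub, zpow_sub, zpow_sub, zpow_natCast, zpow_natCast, mul_comm (m : ℤ), zpow_mul,
      zpow_natCast, zpow_natCast]
  have h4 := congrArg (Units.val) h1
  rw [Units.val_pow_eq_pow_val, Units.val_one, h3] at h4
  have h5 := hval I0 hI0'
  have h6 : (((∏ s, χ s ^ I0 s) * ((∏ s, χ s) ^ m)⁻¹ * ((∏ s, χ s ^ J0 s) ^ m)⁻¹ *
      (∏ j, χ ⟨j, ι j⟩ ^ L.deg j)⁻¹ : ℂˣ) : ℂ) = chi (secL L ι) f b := by
    have e1 : ((∏ s, χ s ^ I0 s : ℂˣ) : ℂ) = ∏ s, (χ s : ℂ) ^ I0 s := by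
      rw [Units.coe_prod]
      exact Finset.prod_congr rfl fun s _ => Units.val_pow_eq_pow_val _ _
    have e2 : (((∏ s, χ s) ^ m : ℂˣ) : ℂ) = (∏ s, (χ s : ℂ)) ^ m := by
      rw [Units.val_pow_eq_pow_val, Units.coe_prod]
    have e3 : (((∏ s, χ s ^ J0 s) ^ m : ℂˣ) : ℂ) = a ^ m := by
      rw [Units.val_pow_eq_pow_val, Units.coe_prod, ← coeff_sigma ha' hJ0]
      congr 1
    have e4 : ((∏ j, χ ⟨j, ι j⟩ ^ L.deg j : ℂˣ) : ℂ) = ∏ j, (χ ⟨j, ι j⟩ : ℂ) ^ L.deg j := by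
      rw [Units.coe_prod]
      exact Finset.prod_congr rfl fun s _ => Units.val_zpow_eq_zpow_val _ _
    have n2 : (∏ s, (χ s : ℂ)) ^ m ≠ 0 := by
      rw [← e2]
      exact Units.ne_zero _
    have n3 : a ^ m ≠ 0 := by
      rw [← e3]
      exact Units.ne_zero _
    have n4 : ∏ j, (χ ⟨j, ι j⟩ : ℂ) ^ L.deg j ≠ 0 := by
      rw [← e4]
      exact Units.ne_zero _
    rw [Units.val_mul, Units.val_mul, Units.val_mul, Units.val_inv_eq_inv_val,
      Units.val_inv_eq_inv_val, Units.val_inv_eq_inv_val, e1, e2, e3, e4]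
    have n1 := hne I0
    field_simp
    field_simp at h5
    linear_combination -h5
  rw [h6] at h4
  exact h4

/-- **Base point freeness on flat quotients.** -/
theorem semiample (hΓ : IsFlatQuotient Γ) (hρ : Ram Γ ρ σ l)
    (hβ : IsEffective β k) (hL : IsLogPluricanonical L m ρ σ l β k)
    (hrel : WRel m L.deg σ β) (hc : L.IsChernForm H) (hn : L.IsNef H) :
    L.IsSemiample := by
  classical
  obtain ⟨hH, f, hf, hpot⟩ := hc
  have hG := torus_GD hΓ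
  have hP : ∀ ι : ∀ j, Fin (r j + 1), IsPot (secL L ι) H f := secL_chern hΓ hf hpot
  obtain ⟨N, hN1, hN⟩ := chi_root (f := f) hΓ hρ hβ hL hH hn.1 hrel
  have h1 : ∀ ι : ∀ j, Fin (r j + 1), ∃ k : ℕ, 1 ≤ k ∧
      ∀ v, ∃ s, ((secL L ι).pow k).IsSection s ∧ s v ≠ 0 := by
    intro ι
    obtain ⟨N', hN1', hN'⟩ := root_of_fixed hG hH (hP ι) hN1 (hN ι (hP ι))
    exact free_of_root hG hH (hP ι) hn.1 hN1' hN'
  choose κ hκ1 hκ using h1
  refine semiample_of_secD hΓ (K := ∏ ι, κ ι)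
    (Nat.succ_le_of_lt (Finset.prod_pos fun ι _ => hκ1 ι)) ?_
  rintro ⟨v, z⟩ hz
  choose ι hι using hz
  obtain ⟨θ, hθ, hθ0⟩ := hκ ι v
  obtain ⟨M, hM⟩ := Finset.dvd_prod_of_mem κ (Finset.mem_univ ι)
  have h2 : ((secL L ι).pow (∏ ι, κ ι)).IsSection fun v => θ v ^ M := by
    refine ⟨hθ.holo.pow M, fun γ w => ?_⟩
    have h3 : θ ((γ : (Fin n → ℂ) ≃ᵃ[ℂ] (Fin n → ℂ)) w) = (secL L ι).e γ w ^ κ ι * θ w :=
      hθ.eq γ w
    change θ ((γ : (Fin n → ℂ) ≃ᵃ[ℂ] (Fin n → ℂ)) w) ^ M =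
      (secL L ι).e γ w ^ (∏ ι, κ ι) * θ w ^ M
    rw [h3, hM, pow_mul, mul_pow]
  refine ⟨_, lift_section hn.2 ι h2, ?_⟩
  refine mul_ne_zero (pow_ne_zero _ hθ0) (pow_ne_zero _ ?_)
  exact Finset.prod_ne_zero_iff.2 fun j _ => pow_ne_zero _ (hι j)

end

/-- **Base point freeness without distinguished coordinates.** -/
theorem semiample_uq {Γ : Subgroup (Grp n r)} {P : (Co r → ℂ) ≃ₗ[ℂ] (Co r → ℂ)} (hP : BU (lm P))
    (hQ : IsFlatQuotient (chg P Γ))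
    {L : LineBundle Γ} {ρ : (Fin n → ℂ) → ℂ} {σ : MvPolynomial (Co r) ℂ} {l k : Fin c → ℕ}
    {β : (Fin n → ℂ) → MvPolynomial (Co r) ℂ} {m : ℕ} {H : (Fin n → ℂ) → (Fin n → ℂ) → ℂ}
    (hρ : Ram (chg P Γ) ρ (sub P σ) l) (hβ : IsEffective β k)
    (hL : IsLogPluricanonical L m ρ σ l β k)
    (hrel : WRel m L.deg (sub P σ) fun v => sub P (β v)) (hc : L.IsChernForm H)
    (hn : L.IsNef H) : L.IsSemiample := by
  classical
  have hβ' := eff_chg hP hβ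
  obtain ⟨M, hM, h5⟩ := semiample hQ hρ hβ' (plu_chg hP hL) hrel (chern_chg hP hc) hn
  refine ⟨M, hM, fun v z hz => ?_⟩
  obtain ⟨s, hs, hs0⟩ := h5 v (P.symm z) ((BU.symm hP).isPt hz)
  refine ⟨fun p => s (p.1, P.symm p.2), ⟨?_, ?_, ?_⟩, hs0⟩
  · have h6 : Differentiable ℂ fun p : (Fin n → ℂ) × (Co r → ℂ) => (p.1, P.symm p.2) := by
      have h7 : Differentiable ℂ fun z => P.symm z :=
        ((P.symm : (Co r → ℂ) →ₗ[ℂ] (Co r → ℂ)).toContinuousLinearMap).differentiable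
      exact differentiable_fst.prodMk (h7.comp differentiable_snd)
    exact hs.holo.comp h6
  · intro μ v z
    have h6 : P.symm (scal μ z) = scal μ (P.symm z) := (BU.symm hP).scal μ z
    change s (v, P.symm (scal μ z)) = _ * s (v, P.symm z)
    rw [h6]
    exact hs.homog μ v _
  · intro g v z
    have h6 : cj P ((((g : Grp n r).1, P⁻¹ * (g : Grp n r).2 * P)) : Grp n r) = (g : Grp n r) := by
      refine Prod.ext rfl ?_
      change P * (P⁻¹ * (g : Grp n r).2 * P) * P⁻¹ = (g : Grp n r).2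
      group
    have h7 : ((((g : Grp n r).1, P⁻¹ * (g : Grp n r).2 * P)) : Grp n r) ∈ chg P Γ := by
      rw [mem_chg, h6]
      exact g.2
    have h8 := hs.eq ⟨_, h7⟩ v (P.symm z)
    change s ((g : Grp n r).1 v, P.symm ((g : Grp n r).2 (P (P.symm z)))) = _ at h8
    rw [LinearEquiv.apply_symm_apply] at h8
    change s ((g : Grp n r).1 v, P.symm ((g : Grp n r).2 z)) = _
    rw [h8]
    congr 1
    change L.e ⟨cj P _, _⟩ v ^ M = L.e g v ^ M
    congr 3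

end Pool.Agent.H896.IL

namespace Pool.Agent.H896.IG

open MvPolynomial Pool.Agent.T2H08.FB Pool.Agent.W594.SYZ2
open Pool.Agent.T2H08 Pool.Agent.H896.IQ

variable {n c : ℕ} {r : Fin c → ℕ} {Γ : Subgroup (Trans n r)}

/-- **Base point freeness for isometry groups.** -/
theorem semiample_of_rel (hΓ : IsIsometryGroup Γ) {P : (Co r → ℂ) ≃ₗ[ℂ] (Co r → ℂ)}
    (hP : BU (lm P)) (hQ : FQ.IsFlatQuotient (chg P (fac Γ)))
    {ρ : (Fin n → ℂ) → ℂ} {σ : MvPolynomial (Co r) ℂ} {l : Fin c → ℕ}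
    (hρ : IL.Ram (chg P (fac Γ)) ρ (sub P σ) l) {m : ℕ}
    {β : (Fin n → ℂ) → MvPolynomial (Co r) ℂ} {k : Fin c → ℕ} (hβ : FQ.IsEffective β k)
    {L : LineBundle Γ} (hL : IsLogPluricanonical L m ρ σ l β k)
    (hrel : IL.WRel m L.deg (sub P σ) fun v => sub P (β v))
    {H : (Fin n → ℂ) → (Fin n → ℂ) → ℂ} (hc : L.IsChernForm H) (hn : L.IsNef H) :
    L.IsSemiample := by
  classical
  obtain ⟨M, hM, h5⟩ := IL.semiample_uq hP hQ hρ hβ (plu_fac hL) hrel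
    (chern_fac hc) hn
  refine semiample_of_secF hΓ hM fun p hp => ?_
  obtain ⟨s, hs, hs0⟩ := h5 p.1 p.2 hp
  refine ⟨s, ⟨hs.holo, fun μ v z => ?_, fun g hg hg' p => hs.eq ⟨g, hg, hg'⟩ p.1 p.2⟩, hs0⟩
  have h6 := hs.homog μ v z
  change s (v, FQ.scal μ z) = _
  rw [h6]
  congr 1
  rw [← Finset.prod_pow]
  refine Finset.prod_congr rfl fun j _ => ?_
  change (μ j : ℂ) ^ ((M : ℤ) * L.deg j) = _
  rw [mul_comm, zpow_mul, zpow_natCast]

end Pool.Agent.H896.IG
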