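import Pool.Agent.H896.IL.Exp

/-!
# Linearised line bundles on `V × F`
-/

set_option autoImplicit false

namespace Pool.Agent.H896.IG

open MvPolynomial Pool.Agent.T2H08.FB Pool.Agent.W594.SYZ2
open Pool.Agent.T2H08 Pool.Agent.H896.IQ

variable {n c : ℕ} {r : Fin c → ℕ} {Γ : Subgroup (Trans n r)}

/-- a linearised line bundle -/
structure IsLin (Γ : Subgroup (Trans n r)) (deg : Fin c → ℤ)
    (e : Trans n r → (Fin n → ℂ) → ℂ) : Prop where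
  holo : ∀ g ∈ Γ, Differentiable ℂ (e g)
  ne_zero : ∀ g ∈ Γ, ∀ v, e g v ≠ 0
  mul : ∀ g ∈ Γ, ∀ h ∈ Γ, ∀ v, e (g * h) v = e g (onV h v) * e h v
  triv : ∀ g ∈ Γ, ∀ ν, Triv g ν → ∀ v, e g v = ∏ j, (ν j : ℂ) ^ deg j
  perm : ∀ g ∈ Γ, ∀ π, Permutes g π → ∀ j, deg (π j) = deg j

variable {deg : Fin c → ℤ} {e : Trans n r → (Fin n → ℂ) → ℂ}

theorem triv_one : Triv (1 : Trans n r) 1 := by
  refine ⟨fun _ => rfl, fun z => ?_⟩
  funext s
  change z s = ((1 : ℂˣ) : ℂ) * z s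
  rw [Units.val_one, one_mul]

theorem IsLin.pow_fixed (h : IsLin Γ deg e) {g : Trans n r} (hg : g ∈ Γ) {v : Fin n → ℂ}
    (hv : onV g v = v) (a : ℕ) : e (g ^ a) v = e g v ^ a := by
  induction a with
  | zero =>
    rw [pow_zero, pow_zero, h.triv 1 Γ.one_mem 1 triv_one]
    simp
  | succ a ih => rw [pow_succ, h.mul _ (Γ.pow_mem hg a) _ hg, hv, ih, pow_succ]

theorem prod_perm' (hd : ∀ g ∈ Γ, ∀ π, Permutes g π → ∀ j, deg (π j) = deg j) {g : Trans n r}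
    (hg : g ∈ Γ) {π : Equiv.Perm (Fin c)} (hπ : Permutes g π) (μ : Fin c → ℂˣ) :
    ∏ k, ((μ (π⁻¹ k) : ℂˣ) : ℂ) ^ deg k = ∏ j, (μ j : ℂ) ^ deg j := by
  rw [← Equiv.prod_comp π (fun k => ((μ (π⁻¹ k) : ℂˣ) : ℂ) ^ deg k)]
  refine Finset.prod_congr rfl fun j _ => ?_
  rw [hd g hg π hπ j]
  have h0 : π⁻¹ (π j) = j := π.symm_apply_apply j
  rw [h0]

theorem stab_pow (hd : ∀ g ∈ Γ, ∀ π, Permutes g π → ∀ j, deg (π j) = deg j) {g : Trans n r}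
    (hg : g ∈ Γ) {π : Equiv.Perm (Fin c)} (hπ : Permutes g π) {z : Co r → ℂ} {μ : Fin c → ℂˣ}
    (hz : onZ g z = mulBy μ z) (a : ℕ) : ∃ ν : Fin c → ℂˣ, onZ (g ^ a) z = mulBy ν z ∧
      ∏ j, (ν j : ℂ) ^ deg j = (∏ j, (μ j : ℂ) ^ deg j) ^ a := by
  induction a with
  | zero =>
    refine ⟨1, triv_one.2 z, ?_⟩
    simp
  | succ a ih =>
    obtain ⟨ν, h1, h2⟩ := ih
    refine ⟨(fun k => ν (π⁻¹ k)) * μ, ?_, ?_⟩
    · rw [pow_succ', onZ_mul, h1, hπ.mulBy, hz, mulBy_mulBy]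
    · rw [pow_succ, ← h2, ← prod_perm' hd hg hπ ν, ← Finset.prod_mul_distrib]
      refine Finset.prod_congr rfl fun j _ => ?_
      rw [Pi.mul_apply, Units.val_mul, mul_zpow]

theorem scal_unique {μ ν : Fin c → ℂˣ} {z : Co r → ℂ} (hz : IsPt z)
    (h : mulBy μ z = mulBy ν z) : μ = ν := by
  funext j
  obtain ⟨i, hi⟩ := hz j
  have h1 := congrFun h ⟨j, i⟩
  exact Units.ext (mul_right_cancel₀ hi h1)

/-- the power of a linearised line bundle as a line bundle on the quotient -/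
def IsLin.toLB (hΓ : IsIsometryGroup Γ) (h : IsLin Γ deg e) {N : ℕ}
    (hN : ∀ g ∈ Γ, ∀ v, onV g v = v → ∃ ν, Triv (g ^ N) ν) : LineBundle Γ where
  deg := fun j => N * deg j
  e := fun g v => e g v ^ N
  holo := fun g hg => (h.holo g hg).pow N
  ne_zero := fun g hg v => pow_ne_zero N (h.ne_zero g hg v)
  mul := fun g hg g' hg' v => by rw [h.mul g hg g' hg', mul_pow]
  stab := fun g hg v z μ hz h1 h2 => by
    obtain ⟨π, hπ⟩ := hΓ.isoF g hg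
    obtain ⟨ν, hν⟩ := hN g hg v h1
    obtain ⟨ν', h3, h4⟩ := stab_pow h.perm hg hπ h2 N
    have h5 : ν = ν' := scal_unique hz (by rw [← hν.2, h3])
    have h6 : ∏ j, (μ j : ℂ) ^ ((N : ℤ) * deg j) = (∏ j, (μ j : ℂ) ^ deg j) ^ N := by
      rw [← Finset.prod_pow]
      refine Finset.prod_congr rfl fun j _ => ?_
      rw [mul_comm, zpow_mul, zpow_natCast]
    rw [← h.pow_fixed hg h1, h.triv _ (Γ.pow_mem hg N) ν hν, h5, h4, h6]
  perm := fun g hg π hπ j => by rw [h.perm g hg π hπ]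

/-! ### The determinant -/

theorem jac_mul (g h : Trans n r) : jac (g * h) = jac g * jac h := by
  unfold jac
  have h1 : (((g * h : Trans n r)).1.linear : (Fin n → ℂ) →ₗ[ℂ] (Fin n → ℂ)) =
      (g.1.linear : (Fin n → ℂ) →ₗ[ℂ] (Fin n → ℂ)) ∘ₗ
        (h.1.linear : (Fin n → ℂ) →ₗ[ℂ] (Fin n → ℂ)) := rfl
  have h2 : ((g * h : Trans n r).2 : (Co r → ℂ) →ₗ[ℂ] (Co r → ℂ)) =
      (g.2 : (Co r → ℂ) →ₗ[ℂ] (Co r → ℂ)) ∘ₗ (h.2 : (Co r → ℂ) →ₗ[ℂ] (Co r → ℂ)) := rfl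
  rw [h1, h2, LinearMap.det_comp, LinearMap.det_comp]
  ring

theorem jac_ne_zero (g : Trans n r) : jac g ≠ 0 :=
  mul_ne_zero (LinearEquiv.isUnit_det' _).ne_zero (LinearEquiv.isUnit_det' _).ne_zero

theorem det_of_unitary {ι : Type*} [Fintype ι] [DecidableEq ι] {A : (ι → ℂ) →ₗ[ℂ] (ι → ℂ)}
    (hA : ∀ z, ∑ i, ‖A z i‖ ^ 2 = ∑ i, ‖z i‖ ^ 2) : ‖LinearMap.det A‖ = 1 := by
  have h1 := Fintype.equivFin ι
  let Φ : (ι → ℂ) ≃ₗ[ℂ] (Fin (Fintype.card ι) → ℂ) := LinearEquiv.funCongrLeft ℂ ℂ h1.symm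
  have hΦ : ∀ z i, Φ z i = z (h1.symm i) := fun _ _ => rfl
  rw [← LinearMap.det_conj A Φ]
  refine norm_det_unitary fun z => ?_
  have h2 := hA (Φ.symm z)
  rw [← Equiv.sum_comp h1.symm (fun i => ‖A (Φ.symm z) i‖ ^ 2),
    ← Equiv.sum_comp h1.symm (fun i => ‖(Φ.symm z) i‖ ^ 2)] at h2
  have h3 : ∀ i, Φ.symm z (h1.symm i) = z i := by
    intro i
    have h4 := hΦ (Φ.symm z) i
    rw [← h4, LinearEquiv.apply_symm_apply]
  simp only [h3] at h2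
  exact h2

theorem norm_jac (hΓ : IsIsometryGroup Γ) {g : Trans n r} (hg : g ∈ Γ) : ‖jac g‖ = 1 := by
  unfold jac
  rw [norm_mul]
  have h1 : ‖LinearMap.det (g.1.linear : (Fin n → ℂ) →ₗ[ℂ] (Fin n → ℂ))‖ = 1 := by
    refine det_of_unitary fun z => ?_
    have h2 := hΓ.isoV g hg z 0
    have h3 : ∀ i, (g.1.linear : (Fin n → ℂ) →ₗ[ℂ] (Fin n → ℂ)) z i = onV g z i - onV g 0 i := by
      intro i
      have h4 := g.1.map_vadd 0 z
      rw [vadd_eq_add, vadd_eq_add, add_zero] at h4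
      have h5 := congrFun h4 i
      change _ = (g.1 : (Fin n → ℂ) → (Fin n → ℂ)) z i - (g.1 : (Fin n → ℂ) → (Fin n → ℂ)) 0 i
      rw [h5, Pi.add_apply, add_sub_cancel_right]
      rfl
    simp only [h3]
    rw [h2]
    exact Finset.sum_congr rfl fun i _ => by rw [Pi.zero_apply, sub_zero]
  have h2 : ‖LinearMap.det (g.2 : (Co r → ℂ) →ₗ[ℂ] (Co r → ℂ))‖ = 1 := by
    classical
    obtain ⟨π, hπ⟩ := hΓ.isoF g hg
    refine det_of_unitary fun z => ?_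
    rw [Fintype.sum_sigma, Fintype.sum_sigma, ← Equiv.sum_comp π]
    exact Finset.sum_congr rfl fun j _ => hπ z j
  rw [h1, h2, one_mul]

theorem jac_triv {g : Trans n r} {ν : Fin c → ℂˣ} (h : Triv g ν) :
    jac g = ∏ j, (ν j : ℂ) ^ (r j + 1) := by
  classical
  unfold jac
  have h1 : (g.1.linear : (Fin n → ℂ) →ₗ[ℂ] (Fin n → ℂ)) = LinearMap.id := by
    have h2 : g.1 = AffineEquiv.refl ℂ (Fin n → ℂ) := AffineEquiv.ext fun w => h.1 w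
    rw [h2]
    rfl
  have h2 : LinearMap.det (g.2 : (Co r → ℂ) →ₗ[ℂ] (Co r → ℂ)) = ∏ s : Co r, (ν s.1 : ℂ) := by
    have h3 : (g.2 : (Co r → ℂ) →ₗ[ℂ] (Co r → ℂ)) =
        Matrix.toLin' (Matrix.diagonal fun s : Co r => (ν s.1 : ℂ)) := by
      refine LinearMap.ext fun z => ?_
      rw [Matrix.toLin'_apply]
      funext s
      rw [Matrix.mulVec_diagonal]
      exact congrFun (h.2 z) s
    rw [h3, LinearMap.det_toLin', Matrix.det_diagonal]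
  rw [h1, LinearMap.det_id, one_mul, h2, Fintype.prod_sigma]
  refine Finset.prod_congr rfl fun j _ => ?_
  change ∏ _i : Fin (r j + 1), (ν j : ℂ) = _
  rw [Finset.prod_const, Finset.card_univ, Fintype.card_fin]

end Pool.Agent.H896.IG
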