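import Pool.Agent.H896.IL.Rel
import Pool.Agent.H896.IR.Real

/-!
# Log canonical pairs with real coefficients
-/

set_option autoImplicit false

namespace Pool.Agent.H896.IG

open MvPolynomial Pool.Agent.T2H08.FB Pool.Agent.W594.SYZ2 Pool.Agent.W594.SYZ2.TQ
  Pool.Agent.TH735.AQ
open Pool.Agent.T2H08 Pool.Agent.H896.IQ

variable {n c : ℕ} {r : Fin c → ℕ} {Γ : Subgroup (Trans n r)}

variable {K : LineBundle Γ} {N : ℕ} {D : Fin N → LineBundle Γ}
  {HK : (Fin n → ℂ) → (Fin n → ℂ) → ℂ} {HD : Fin N → (Fin n → ℂ) → (Fin n → ℂ) → ℂ}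
  {ρ : (Fin n → ℂ) → ℂ} {σ : MvPolynomial (Co r) ℂ} {l : Fin c → ℕ} {m : ℕ}
  {β : Fin N → (Fin n → ℂ) → MvPolynomial (Co r) ℂ} {κ : Fin N → Fin c → ℕ}

/-- the linear forms given by the weights -/
def Psi (m : ℕ) (kd : Fin c → ℤ) (κ : Fin N → Fin c → ℕ) (w : Co r → ℕ) (Wi : Fin N → ℕ)
    (W' : ℕ) (ι : ∀ j, Fin (r j + 1)) : Fin (N + 1) → ℤ :=
  Fin.cons (-(m * W' + m * ∑ s, (w s : ℤ) + ∑ j, kd j * w ⟨j, ι j⟩))
    fun i => Wi i - ∑ j, (κ i j : ℤ) * w ⟨j, ι j⟩

theorem psi_sum {R : Type*} [CommRing R] (m : ℕ) (kd : Fin c → ℤ) (κ : Fin N → Fin c → ℕ)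
    (w : Co r → ℕ) (Wi : Fin N → ℕ) (W' : ℕ) (ι : ∀ j, Fin (r j + 1)) (y : Fin (N + 1) → R) :
    ∑ i, (Psi m kd κ w Wi W' ι i : R) * y i = ∑ i, y (Fin.succ i) * (Wi i : R) -
      y 0 * (m * W' + m * ∑ s, (w s : R)) -
      ∑ j, (y 0 * (kd j : R) + ∑ i, y (Fin.succ i) * (κ i j : R)) * (w ⟨j, ι j⟩ : R) := by
  rw [Fin.sum_univ_succ]
  simp only [Psi, Fin.cons_zero, Fin.cons_succ]
  push_cast
  have h1 : ∑ i : Fin N, ((Wi i : R) - ∑ j, (κ i j : R) * (w ⟨j, ι j⟩ : R)) * y (Fin.succ i) =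
      ∑ i, y (Fin.succ i) * (Wi i : R) -
        ∑ j, (∑ i, y (Fin.succ i) * (κ i j : R)) * (w ⟨j, ι j⟩ : R) := by
    simp only [sub_mul, Finset.sum_mul]
    rw [Finset.sum_sub_distrib, Finset.sum_comm]
    congr 1
    · exact Finset.sum_congr rfl fun i _ => mul_comm _ _
    · exact Finset.sum_congr rfl fun j _ => Finset.sum_congr rfl fun i _ => by ring
  rw [h1]
  simp only [add_mul, Finset.sum_add_distrib]
  have h2 : ∑ j, y 0 * (kd j : R) * (w ⟨j, ι j⟩ : R) =
      y 0 * ∑ j, (kd j : R) * (w ⟨j, ι j⟩ : R) := by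
    rw [Finset.mul_sum]
    exact Finset.sum_congr rfl fun j _ => by ring
  rw [h2]
  ring

/-- the forms of all the weights which preserve the pair -/
def Forms (m : ℕ) (kd : Fin c → ℤ) (κ : Fin N → Fin c → ℕ) (σ : MvPolynomial (Co r) ℂ)
    (β : Fin N → (Fin n → ℂ) → MvPolynomial (Co r) ℂ) : Set (Fin (N + 1) → ℤ) :=
  {f | ∃ (w : Co r → ℕ) (Wi : Fin N → ℕ) (W' : ℕ) (ι : ∀ j, Fin (r j + 1)),
    (∀ J ∈ σ.support, IR.wt w J = W') ∧ (∀ i v, ∀ I ∈ (β i v).support, IR.wt w I = Wi i) ∧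
      f = Psi m kd κ w Wi W' ι}

/-- The forms vanish at the coefficients of a log canonical pair. -/
theorem forms_zero (hβ : ∀ i, FQ.IsEffective (β i) (κ i)) (hl : FQ.IsHomog l σ) (hm : 1 ≤ m)
    {d : Fin N → ℝ} (hdisc : IL.Disc σ d β)
    (hk : ∀ j, (l j : ℝ) + (r j + 1) ≤ ∑ i, d i * κ i j) {kd : Fin c → ℤ}
    (hkd : ∀ j, kd j = -((m : ℤ) * (l j + (r j + 1)))) {f : Fin (N + 1) → ℤ}
    (hf : f ∈ Forms m kd κ σ β) :
    ∑ i, (f i : ℝ) * (Fin.cons (1 / (m : ℝ)) d : Fin (N + 1) → ℝ) i = 0 := by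
  obtain ⟨w, Wi, W', ι, h1, h2, rfl⟩ := hf
  have hm0 : (m : ℝ) ≠ 0 := by positivity
  rw [psi_sum]
  simp only [Fin.cons_zero, Fin.cons_succ]
  have h3 := IL.weight_rel (w := fun s => (w s : ℝ)) (W := fun i => (Wi i : ℝ)) (W' := (W' : ℝ))
    hβ hl hdisc hk
    (fun J hJ => by
      have h3 := h1 J hJ
      unfold IR.wt at h3
      exact_mod_cast h3)
    (fun i v I hI => by
      have h3 := h2 i v I hI
      unfold IR.wt at h3
      exact_mod_cast h3) ι
  have h4 : ∀ j, 1 / (m : ℝ) * (kd j : ℝ) = -((l j : ℝ) + (r j + 1)) := by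
    intro j
    rw [hkd]
    push_cast
    field_simp
  rw [h3]
  have h5 : ∑ j, (1 / (m : ℝ) * (kd j : ℝ) + ∑ i, d i * (κ i j : ℝ)) * (w ⟨j, ι j⟩ : ℝ) =
      ∑ j, ((∑ i, d i * (κ i j : ℝ)) - ((l j : ℝ) + (r j + 1))) * (w ⟨j, ι j⟩ : ℝ) := by
    refine Finset.sum_congr rfl fun j _ => ?_
    rw [h4]
    ring
  rw [h5]
  field_simp
  ring

/-- **Base point freeness for log canonical pairs with real coefficients.** -/
theorem semiample_lc (hΓ : IsIsometryGroup Γ) (hρ : IsRamification Γ ρ σ l) (hm : 1 ≤ m)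
    (hK : IsLogPluricanonical K m ρ σ l (fun _ => 1) (fun _ => 0)) (hHK : K.IsChernForm HK)
    (hβ : ∀ i, IsCartier (D i) (β i) (κ i)) (hHD : ∀ i, (D i).IsChernForm (HD i))
    {d : Fin N → ℝ} (hd : ∀ i, 0 < d i)
    (hlc : ∀ t : ℝ, 0 ≤ t → t < 1 → IsKltReal ρ σ (fun i => t * d i) β)
    (hn : IsNefClass (realClass K HK D HD (1 / m) d)) : IsSemiampleReal K D (1 / m) d := by
  classical
  obtain ⟨hnf, hnd⟩ := hn
  have hm0 : (0 : ℝ) < m := by exact_mod_cast hm
  have hs : (0 : ℝ) < 1 / m := by positivity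
  obtain ⟨P0, hP0, hQ⟩ := IR.exists_flat (isUQ hΓ)
  have hβ' : ∀ i, FQ.IsEffective (fun v => sub P0 (β i v)) (κ i) := fun i =>
    IR.eff_chg hP0 (eff_conv (hβ i).effective)
  have hl' : FQ.IsHomog l (sub P0 σ) := isHomog_sub hP0 (homog_conv hρ.homog)
  have hkd : ∀ j, K.deg j = -((m : ℤ) * (l j + (r j + 1))) := by
    intro j
    have h2 := hK.deg j
    push_cast at h2
    linarith
  have hdeg : ∀ j, (l j : ℝ) + (r j + 1) ≤ ∑ i, d i * κ i j := by
    intro j
    have h1 := hnd j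
    change 0 ≤ 1 / (m : ℝ) * K.deg j + ∑ i, d i * (D i).deg j at h1
    have h3 : (K.deg j : ℝ) = -(m * (l j + (r j + 1))) := by
      rw [hkd]
      push_cast
      ring
    have h5 : ∑ i, d i * ((D i).deg j : ℝ) = ∑ i, d i * κ i j :=
      Finset.sum_congr rfl fun i _ => by rw [(hβ i).deg]; push_cast; rfl
    rw [h3, h5] at h1
    have h6 : 1 / (m : ℝ) * -(m * (l j + (r j + 1))) = -((l j : ℝ) + (r j + 1)) := by
      field_simp
    rw [h6] at h1
    linarith
  have hdisc : IL.Disc (sub P0 σ) d (fun i v => sub P0 (β i v)) :=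
    IL.disc_of_lc hρ.holo hβ' hl' hρ.rho_ne_zero (sub_ne_zero hρ.ne_zero)
      fun t h0 h1 => klt_chg hP0 (hlc t h0 h1)
  -- finitely many forms
  obtain ⟨T, hTS, hTspan⟩ := Submodule.fg_span_iff_fg_span_finset_subset (R := ℤ)
    (Forms m K.deg κ (sub P0 σ) (fun i v => sub P0 (β i v))) |>.1 (IsNoetherian.noetherian _)
  obtain ⟨J, hJ, kk, xx, htest⟩ := exists_int_tests hΓ hρ hK hHK hβ hHD
  let nn : Fin (N + 1) ⊕ ((J ⊕ Fin c) ⊕ ({f // f ∈ T} ⊕ {f // f ∈ T})) → Fin (N + 1) → ℤ :=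
    Sum.elim (fun i j => if i = j then 1 else 0)
      (Sum.elim (Sum.elim (fun j => Fin.cons (kk j) fun i => xx j i)
        (fun j => Fin.cons (K.deg j) fun i => (D i).deg j))
        (Sum.elim (fun f => f.1) (fun f => -f.1)))
  let x : Fin (N + 1) → ℝ := Fin.cons (1 / m) d
  have hl : ∀ (y : Fin (N + 1) → ℝ) (i : Fin (N + 1)),
      ∑ j, (nn (Sum.inl i) j : ℝ) * y j = y i := by
    intro y i
    simp [nn]
  have hr : ∀ (y : Fin (N + 1) → ℝ) (j : J), ∑ i, (nn (Sum.inr (Sum.inl (Sum.inl j))) i : ℝ) * y i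
      = y 0 * kk j + ∑ i, y (Fin.succ i) * xx j i := by
    intro y j
    rw [Fin.sum_univ_succ]
    simp only [nn, Sum.elim_inr, Sum.elim_inl, Fin.cons_zero, Fin.cons_succ]
    rw [mul_comm]
    congr 1
    exact Finset.sum_congr rfl fun i _ => mul_comm _ _
  have hr2 : ∀ (y : Fin (N + 1) → ℝ) (j : Fin c),
      ∑ i, (nn (Sum.inr (Sum.inl (Sum.inr j))) i : ℝ) * y i
      = y 0 * K.deg j + ∑ i, y (Fin.succ i) * (D i).deg j := by
    intro y j
    rw [Fin.sum_univ_succ]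
    simp only [nn, Sum.elim_inr, Sum.elim_inl, Fin.cons_zero, Fin.cons_succ]
    rw [mul_comm]
    congr 1
    exact Finset.sum_congr rfl fun i _ => mul_comm _ _
  have hT0 : ∀ f ∈ T, ∑ i, (f i : ℝ) * x i = 0 := fun f hf =>
    forms_zero hβ' hl' hm hdisc hdeg hkd (hTS hf)
  have hx0 : ∀ i, 0 < x i := by
    intro i
    refine Fin.cases ?_ (fun i => ?_) i
    · exact hs
    · exact hd i
  obtain ⟨ι, hι, t, b, ht, hsum, hb⟩ := Q47.MM.cone_decomp nn x (by
    rintro (i | (j | j) | f | f)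
    · rw [hl]
      exact (hx0 i).le
    · rw [hr]
      exact (htest _ d fun i => (hd i).le).1 hnf j
    · rw [hr2]
      exact hnd j
    · exact (hT0 f.1 f.2).ge
    · have h1 := hT0 f.1 f.2
      have h2 : ∑ i, (nn (Sum.inr (Sum.inr (Sum.inr f))) i : ℝ) * x i =
          -∑ i, (f.1 i : ℝ) * x i := by
        rw [← Finset.sum_neg_distrib]
        refine Finset.sum_congr rfl fun i _ => ?_
        simp only [nn, Sum.elim_inr, Pi.neg_apply]
        push_cast
        ring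
      rw [h2, h1, neg_zero])
  have hbpos : ∀ k i, 0 < b k i := by
    intro k i
    have h1 := (hb k (Sum.inl i)).2 (by rw [hl]; exact hx0 i)
    simpa [nn] using h1
  have hbR : ∀ k i, (((b k i).toNat : ℕ) : ℝ) = b k i := by
    intro k i
    have := Int.toNat_of_nonneg (hbpos k i).le
    exact_mod_cast this
  have hbZ : ∀ k i, (((b k i).toNat : ℕ) : ℤ) = b k i := by
    intro k i
    exact Int.toNat_of_nonneg (hbpos k i).le
  -- all the forms vanish at the vectors of the decomposition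
  have hbT : ∀ k, ∀ f ∈ Forms m K.deg κ (sub P0 σ) (fun i v => sub P0 (β i v)),
      ∑ i, f i * b k i = 0 := by
    intro k f hf
    have h1 : f ∈ Submodule.span ℤ (Forms m K.deg κ (sub P0 σ) (fun i v => sub P0 (β i v))) :=
      Submodule.subset_span hf
    rw [hTspan] at h1
    refine Submodule.span_induction (p := fun f _ => ∑ i, f i * b k i = 0) ?_ ?_ ?_ ?_ h1
    · intro f hf
      have h2 := (hb k (Sum.inr (Sum.inr (Sum.inl ⟨f, hf⟩)))).1
      have h3 := (hb k (Sum.inr (Sum.inr (Sum.inr ⟨f, hf⟩)))).1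
      have h4 : ∑ i, nn (Sum.inr (Sum.inr (Sum.inr ⟨f, hf⟩))) i * b k i = -∑ i, f i * b k i := by
        rw [← Finset.sum_neg_distrib]
        refine Finset.sum_congr rfl fun i _ => ?_
        simp only [nn, Sum.elim_inr, Pi.neg_apply]
        ring
      rw [h4] at h3
      have h5 : 0 ≤ ∑ i, f i * b k i := h2
      linarith
    · simp
    · intro f g _ _ h2 h3
      simp only [Pi.add_apply, add_mul]
      rw [Finset.sum_add_distrib, h2, h3, add_zero]
    · intro a f _ h2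
      simp only [Pi.smul_apply, smul_eq_mul, mul_assoc]
      rw [← Finset.mul_sum, h2, mul_zero]
  refine ⟨ι, hι, t, fun k => (b k 0).toNat, fun k i => (b k i.succ).toNat, ht, fun k => ?_,
    ?_, ?_, fun k => ?_⟩
  · have := hbpos k 0
    change 1 ≤ (b k 0).toNat
    omega
  · have h1 := hsum 0
    change _ = 1 / (m : ℝ) at h1
    rw [← h1]
    exact Finset.sum_congr rfl fun k _ => by rw [hbR]
  · intro i
    have h1 := hsum i.succ
    change _ = d i at h1
    rw [← h1]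
    exact Finset.sum_congr rfl fun k _ => by rw [hbR]
  · have hdegk : ∀ j, (K.adj D (b k 0).toNat fun i => (b k i.succ).toNat).deg j =
        b k 0 * K.deg j + ∑ i, b k i.succ * (D i).deg j := by
      intro j
      change (((b k 0).toNat : ℕ) : ℤ) * K.deg j +
        ∑ i, (((b k i.succ).toNat : ℕ) : ℤ) * (D i).deg j = _
      rw [hbZ]
      congr 1
      exact Finset.sum_congr rfl fun i _ => by rw [hbZ]
    have hrel : IL.WRel (m * (b k 0).toNat) (K.adj D (b k 0).toNat fun i => (b k i.succ).toNat).deg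
        (sub P0 σ) fun v => sub P0 (∏ i, β i v ^ (b k i.succ).toNat) := by
      have h1 : (fun v => sub P0 (∏ i, β i v ^ (b k i.succ).toNat)) =
          fun v => ∏ i, (sub P0 (β i v)) ^ (b k i.succ).toNat := by
        funext v
        simp only [map_prod, map_pow]
      rw [h1]
      intro w W W' hW' hW ι
      have hb1 : ∀ i : Fin N, 1 ≤ (b k i.succ).toNat := fun i => by
        have := hbpos k i.succ
        omega
      have h2 : ∀ i, ∃ W' : ℕ, ∀ v, ∀ I ∈ (sub P0 (β i v)).support, IR.wt w I = W' := fun i =>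
        IR.iso_factor hβ' hb1 hW i
      choose Wi hWi using h2
      have h3 := IL.wt_prod hβ' hW hWi
      have h4 := hbT k _ ⟨w, Wi, W', ι, hW', hWi, rfl⟩
      have h5 := psi_sum (R := ℤ) m K.deg κ w Wi W' ι (b k)
      simp only [Int.cast_id] at h5
      rw [h4] at h5
      have h6 : ∀ j, (K.adj D (b k 0).toNat fun i => (b k i.succ).toNat).deg j =
          b k 0 * K.deg j + ∑ i, b k i.succ * (κ i j : ℤ) := by
        intro j
        rw [hdegk]
        congr 1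
        exact Finset.sum_congr rfl fun i _ => by rw [(hβ i).deg]
      have h7 : (W : ℤ) = ∑ i, b k i.succ * (Wi i : ℤ) := by
        rw [h3]
        push_cast
        exact Finset.sum_congr rfl fun i _ => by rw [hbZ]
      simp only [h6]
      rw [h7]
      push_cast
      rw [hbZ]
      linarith
    refine semiample_of_rel hΓ hP0 hQ (IL.ram_of _ (IR.ram_chg hP0 (ram_fac hΓ hρ)))
      (IR.eff_prod (fun i => eff_conv (hβ i).effective) (fun i => (b k i.succ).toNat) Finset.univ)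
      (plu_adj hK hβ _ _) hrel
      (chern_adj hHK hHD _ _) ⟨?_, fun j => ?_⟩
    · rw [htest _ _ fun i => Nat.cast_nonneg _]
      intro j
      have h1 := (hb k (Sum.inr (Sum.inl (Sum.inl j)))).1
      have h2 : (0 : ℝ) ≤ ∑ i, (nn (Sum.inr (Sum.inl (Sum.inl j))) i : ℝ) * (b k i : ℝ) := by
        exact_mod_cast h1
      rw [hr (fun i => (b k i : ℝ)) j] at h2
      simp only [hbR]
      exact h2
    · have h1 := (hb k (Sum.inr (Sum.inl (Sum.inr j)))).1
      have h2 : (0 : ℝ) ≤ ∑ i, (nn (Sum.inr (Sum.inl (Sum.inr j))) i : ℝ) * (b k i : ℝ) := by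
        exact_mod_cast h1
      rw [hr2 (fun i => (b k i : ℝ)) j] at h2
      rw [hdegk]
      exact_mod_cast h2

end Pool.Agent.H896.IG
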