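import Pool.Agent.H896.IR.Stmt

/-!
# Log canonical pairs with real coefficients on compact quotients of
`ℂ^n × P^{r_1} × ... × P^{r_c}` by isometries

See `Pool.Agent.H896.IQ.Stmt` for the groups, the line bundles and the ramification divisor and
`Pool.Agent.H896.IR.Stmt` for divisors with real coefficients.
-/

set_option autoImplicit false

namespace Pool.Agent.H896.IG

open MvPolynomial Pool.Agent.T2H08.FB

variable {n c : ℕ} {r : Fin c → ℕ}

/-- The pair `(X, B)`, `B = ∑ d i D_i`, is log canonical: `(X, t B)` is klt for `0 ≤ t < 1`. (The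
discrepancies of `(X, t B)` are affine functions of `t`, and `X` has quotient singularities, so that
`(X, 0)` is klt. Hence this is the case if and only if all the discrepancies of `(X, B)` are at
least `-1`.) -/
def IsLcReal {N : ℕ} (ρ : (Fin n → ℂ) → ℂ) (σ : MvPolynomial (Co r) ℂ) (d : Fin N → ℝ)
    (β : Fin N → (Fin n → ℂ) → MvPolynomial (Co r) ℂ) : Prop :=
  ∀ t : ℝ, 0 ≤ t → t < 1 → IsKltReal ρ σ (fun i => t * d i) β

end Pool.Agent.H896.IG
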